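import Mathlib

open TopologicalSpace Topology

namespace Pool.Agent.MP_89350a_an

variable {𝕜 E : Type*} [NontriviallyNormedField 𝕜] [NormedAddCommGroup E] [NormedSpace 𝕜 E]

/-- `E⁺(U)`: the closed linear subspaces of `E` that meet `U`. -/
def hits (𝕜 : Type*) [NontriviallyNormedField 𝕜] [NormedSpace 𝕜 E] (U : Set E) :
    Set (ClosedSubmodule 𝕜 E) :=
  {X | ((X : Set E) ∩ U).Nonempty}

/-- An admissible topology on the set of closed linear subspaces of `E`: a Polish topology in which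
every `E⁺(U)` (`U` open) is open, and which has a subbasis each of whose members is a countable
union of sets `E⁺(U) \ E⁺(V)` with `U`, `V` open. -/
structure IsAdmissible (τ : TopologicalSpace (ClosedSubmodule 𝕜 E)) : Prop where
  polish : @PolishSpace (ClosedSubmodule 𝕜 E) τ
  isOpen_hits : ∀ U : Set E, IsOpen U → IsOpen[τ] (hits 𝕜 U)
  subbasis : ∃ S : Set (Set (ClosedSubmodule 𝕜 E)), τ = generateFrom S ∧
    ∀ s ∈ S, ∃ U V : ℕ → Set E, (∀ n, IsOpen (U n)) ∧ (∀ n, IsOpen (V n)) ∧
      s = ⋃ n, hits 𝕜 (U n) \ hits 𝕜 (V n)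

end Pool.Agent.MP_89350a_an
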