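import Mathlib

open TopologicalSpace Topology Filter Set

namespace Pool.Agent.MP_89350a_an

section Glue

variable {T : Type*} [TopologicalSpace T] [SecondCountableTopology T]

/-- Gluing local continuous solutions on a zero-dimensional second countable space. -/
lemma exists_glue {Y : Type*} [TopologicalSpace Y]
    (hz : IsTopologicalBasis {s : Set T | IsClopen s})
    {O : Set T} (hO : IsOpen O) (P : T → Y → Prop) (d : T → Y)
    (hloc : ∀ x ∈ O, ∃ s : T → Y, Continuous s ∧ ∀ᶠ y in 𝓝 x, P y (s y)) :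
    ∃ s : T → Y, (∀ x ∈ O, ContinuousAt s x) ∧ (∀ x ∈ O, P x (s x)) ∧ ∀ x ∉ O, s x = d x := by
  classical
  rcases O.eq_empty_or_nonempty with rfl | ⟨x₀, hx₀⟩
  · exact ⟨d, by simp, by simp, fun _ _ => rfl⟩
  set S : Set (Set T) := {D | IsClopen D ∧ ∃ s : T → Y, Continuous s ∧ ∀ y ∈ D, P y (s y)}
    with hS
  obtain ⟨C, hCc, hCS, hCU⟩ := isOpen_sUnion_countable S (fun s hs => hs.1.isOpen)
  have hcov : ∀ x ∈ O, ∃ D ∈ C, x ∈ D := by
    intro x hx
    obtain ⟨s, hs, hP⟩ := hloc x hx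
    obtain ⟨D, hD, hxD, hDP⟩ := hz.mem_nhds_iff.1 hP
    have : x ∈ ⋃₀ S := ⟨D, ⟨hD, s, hs, fun y hy => hDP hy⟩, hxD⟩
    rw [← hCU] at this
    exact this
  have hCne : C.Nonempty := by
    obtain ⟨D, hD, -⟩ := hcov x₀ hx₀
    exact ⟨D, hD⟩
  obtain ⟨D, rfl⟩ := hCc.exists_eq_range hCne
  have hD : ∀ n, IsClopen (D n) := fun n => (hCS (mem_range_self n)).1
  choose σ hσc hσP using fun n => (hCS (mem_range_self n)).2
  have hex : ∀ x ∈ O, ∃ n, x ∈ D n := by
    intro x hx
    obtain ⟨_, ⟨n, rfl⟩, h⟩ := hcov x hx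
    exact ⟨n, h⟩
  refine ⟨fun x => if h : x ∈ O then σ (Nat.find (hex x h)) x else d x, ?_, ?_, ?_⟩
  · intro x hx
    have hev : ∀ᶠ y in 𝓝 x, (fun y => if h : y ∈ O then σ (Nat.find (hex y h)) y else d y) y
        = σ (Nat.find (hex x hx)) y := by
      have h1 : ∀ᶠ y in 𝓝 x, y ∈ O := hO.mem_nhds hx
      have h2 : ∀ᶠ y in 𝓝 x, y ∈ D (Nat.find (hex x hx)) :=
        (hD _).isOpen.mem_nhds (Nat.find_spec (hex x hx))
      have h3 : ∀ᶠ y in 𝓝 x, ∀ k ∈ Finset.range (Nat.find (hex x hx)), y ∉ D k := by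
        rw [Filter.eventually_all_finset]
        intro k hk
        exact (hD k).compl.isOpen.mem_nhds (Nat.find_min (hex x hx) (Finset.mem_range.1 hk))
      filter_upwards [h1, h2, h3] with y hy1 hy2 hy3
      have : Nat.find (hex y hy1) = Nat.find (hex x hx) := by
        rw [Nat.find_eq_iff]
        exact ⟨hy2, fun k hk => hy3 k (Finset.mem_range.2 hk)⟩
      simp only [dif_pos hy1, this]
    exact ((hσc _).continuousAt).congr (EventuallyEq.symm hev)
  · intro x hx
    simp only [dif_pos hx]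
    exact hσP _ _ (Nat.find_spec (hex x hx))
  · intro x hx
    simp only [dif_neg hx]

/-- Gluing local solutions that can be taken arbitrarily close to a given continuous map. -/
lemma exists_glue_near {Y : Type*} [PseudoMetricSpace Y] [PseudoMetrizableSpace T]
    (hz : IsTopologicalBasis {s : Set T | IsClopen s})
    {O : Set T} (hO : IsOpen O) (P : T → Y → Prop) {d : T → Y} (hd : Continuous d)
    {ε : ℝ} (hε : 0 < ε)
    (hloc : ∀ x ∈ O, ∀ δ > (0 : ℝ), ∃ s : T → Y, Continuous s ∧ dist (s x) (d x) < δ ∧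
      ∀ᶠ y in 𝓝 x, P y (s y)) :
    ∃ s : T → Y, Continuous s ∧ (∀ x ∈ O, P x (s x)) ∧ (∀ x ∉ O, s x = d x) ∧
      ∀ x, dist (s x) (d x) < ε := by
  let := pseudoMetrizableSpacePseudoMetric T
  obtain ⟨s, hsc, hsP, hsd⟩ := exists_glue hz hO
    (fun y v => P y v ∧ dist v (d y) < ε ∧ edist v (d y) < Metric.infEDist y Oᶜ) d (by
      intro x hx
      have hpos : 0 < Metric.infEDist x Oᶜ := by
        rw [Metric.infEDist_pos_iff_notMem_closure, hO.isClosed_compl.closure_eq]
        simpa using hx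
      obtain ⟨r, hr0, hr1, hr2⟩ := ENNReal.lt_iff_exists_real_btwn.1 hpos
      have hr : 0 < r := by simpa using hr1
      obtain ⟨s, hs, hsx, hP⟩ := hloc x hx (min ε r) (lt_min hε hr)
      refine ⟨s, hs, ?_⟩
      have h1 : ∀ᶠ y in 𝓝 x, dist (s y) (d y) < ε :=
        (hs.dist hd).continuousAt.eventually_lt continuousAt_const (hsx.trans_le (min_le_left _ _))
      have h2 : ∀ᶠ y in 𝓝 x, edist (s y) (d y) < Metric.infEDist y Oᶜ := by
        refine (hs.edist hd).continuousAt.eventually_lt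
          Metric.continuous_infEDist.continuousAt ?_
        refine lt_trans ?_ hr2
        rw [edist_dist]
        exact (ENNReal.ofReal_lt_ofReal_iff hr).2 (hsx.trans_le (min_le_right _ _))
      filter_upwards [hP, h1, h2] with y a b c using ⟨a, b, c⟩)
  refine ⟨s, ?_, fun x hx => (hsP x hx).1, hsd, ?_⟩
  · rw [continuous_iff_continuousAt]
    intro x
    by_cases hx : x ∈ O
    · exact hsc x hx
    · have hb : ∀ y, edist (s y) (d y) ≤ edist y x := by
        intro y
        by_cases hy : y ∈ O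
        · exact (hsP y hy).2.2.le.trans (Metric.infEDist_le_edist_of_mem hx)
        · simp [hsd y hy]
      have hb' : ∀ y, dist (s y) (d y) ≤ dist y x := by
        intro y
        have := hb y
        rw [edist_dist, edist_dist] at this
        exact (ENNReal.ofReal_le_ofReal_iff dist_nonneg).1 this
      rw [ContinuousAt, hsd x hx]
      refine (hd.tendsto x).congr_dist ?_
      refine squeeze_zero (g := fun y => dist y x) (fun _ => dist_nonneg)
        (fun y => by rw [dist_comm]; exact hb' y) ?_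
      simpa using (continuous_id.dist (continuous_const (y := x))).tendsto x
  · intro x
    by_cases hx : x ∈ O
    · exact (hsP x hx).2.1
    · simp [hsd x hx, hε]

variable {E : Type*} [MetricSpace E] [CompleteSpace E]

/-- Zero-dimensional selection theorem, with control of the distance to an approximate
selection. -/
lemma exists_selection (hz : IsTopologicalBasis {s : Set T | IsClopen s})
    (F : T → Set E) (hFc : ∀ x, IsClosed (F x))
    (hF : ∀ U : Set E, IsOpen U → IsOpen {x | (F x ∩ U).Nonempty})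
    {s₀ : T → E} (hs₀ : Continuous s₀) {r : ℝ} (hr : 0 < r)
    (h₀ : ∀ x, ∃ y ∈ F x, dist (s₀ x) y < r) :
    ∃ s : T → E, Continuous s ∧ (∀ x, s x ∈ F x) ∧ ∀ x, dist (s₀ x) (s x) ≤ 2 * r := by
  have step : ∀ (ρ : ℝ) (s : T → E), ∃ s' : T → E, 0 < ρ → Continuous s →
      (∀ x, ∃ y ∈ F x, dist (s x) y < ρ) →
      Continuous s' ∧ (∀ x, ∃ y ∈ F x, dist (s' x) y < ρ / 2) ∧ ∀ x, dist (s x) (s' x) < ρ := by
    intro ρ s
    by_cases h : 0 < ρ ∧ Continuous s ∧ (∀ x, ∃ y ∈ F x, dist (s x) y < ρ)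
    · obtain ⟨hρ, hs, hF'⟩ := h
      obtain ⟨s', h1, h2, -⟩ := exists_glue hz isOpen_univ
        (fun x v => (∃ y ∈ F x, dist v y < ρ / 2) ∧ dist (s x) v < ρ) s (by
          intro x _
          obtain ⟨y, hy, hxy⟩ := hF' x
          refine ⟨fun _ => y, continuous_const, ?_⟩
          have h1 : ∀ᶠ z in 𝓝 x, (F z ∩ Metric.ball y (ρ / 2)).Nonempty :=
            (hF _ Metric.isOpen_ball).mem_nhds ⟨y, hy, Metric.mem_ball_self (half_pos hρ)⟩
          have h2 : ∀ᶠ z in 𝓝 x, dist (s z) y < ρ :=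
            (hs.dist continuous_const).continuousAt.eventually_lt continuousAt_const hxy
          filter_upwards [h1, h2] with z hz1 hz2
          obtain ⟨w, hw1, hw2⟩ := hz1
          exact ⟨⟨w, hw1, by rw [dist_comm]; exact hw2⟩, hz2⟩)
      exact ⟨s', fun _ _ _ => ⟨continuous_iff_continuousAt.2 fun x => h1 x (mem_univ x),
        fun x => (h2 x (mem_univ x)).1, fun x => (h2 x (mem_univ x)).2⟩⟩
    · exact ⟨s, fun a b c => (h ⟨a, b, c⟩).elim⟩
  choose nxt hnxt using step
  let u : ℕ → T → E := fun n => Nat.rec s₀ (fun k s => nxt (r / 2 ^ k) s) n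
  have hu0 : u 0 = s₀ := rfl
  have hus : ∀ k, u (k + 1) = nxt (r / 2 ^ k) (u k) := fun k => rfl
  have hinv : ∀ k, Continuous (u k) ∧ ∀ x, ∃ y ∈ F x, dist (u k x) y < r / 2 ^ k := by
    intro k
    induction k with
    | zero => exact ⟨hs₀, by simpa [hu0] using h₀⟩
    | succ k ih =>
      obtain ⟨h1, h2, -⟩ := hnxt (r / 2 ^ k) (u k) (by positivity) ih.1 ih.2
      rw [hus]
      refine ⟨h1, ?_⟩
      have : r / 2 ^ (k + 1) = r / 2 ^ k / 2 := by rw [pow_succ, div_div]
      rw [this]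
      exact h2
  have hd : ∀ x k, dist (u k x) (u (k + 1) x) ≤ (2 * r) / 2 / 2 ^ k := by
    intro x k
    obtain ⟨-, -, h3⟩ := hnxt (r / 2 ^ k) (u k) (by positivity) (hinv k).1 (hinv k).2
    rw [hus]
    have : 2 * r / 2 = r := by ring
    rw [this]
    exact (h3 x).le
  have hcau : ∀ x, CauchySeq fun k => u k x := fun x => cauchySeq_of_le_geometric_two (hd x)
  choose s hs using fun x => cauchySeq_tendsto_of_complete (hcau x)
  have hb : ∀ x k, dist (u k x) (s x) ≤ 2 * r / 2 ^ k := fun x k =>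
    dist_le_of_le_geometric_two_of_tendsto (hd x) (hs x) k
  have hlim : ∀ c : ℝ, Tendsto (fun k : ℕ => c / 2 ^ k) atTop (𝓝 0) := fun c =>
    tendsto_const_nhds.div_atTop (tendsto_pow_atTop_atTop_of_one_lt one_lt_two)
  refine ⟨s, ?_, ?_, ?_⟩
  · have hU : TendstoUniformly u s atTop := by
      rw [Metric.tendstoUniformly_iff]
      intro ε hε
      filter_upwards [(hlim (2 * r)).eventually (gt_mem_nhds hε)] with k hk x
      rw [dist_comm]
      exact (hb x k).trans_lt hk
    exact hU.continuous (Frequently.of_forall fun k => (hinv k).1)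
  · intro x
    rw [← (hFc x).closure_eq, Metric.mem_closure_iff]
    intro ε hε
    obtain ⟨k, hk⟩ := ((hlim (3 * r)).eventually (gt_mem_nhds hε)).exists
    obtain ⟨y, hy, hy'⟩ := (hinv k).2 x
    refine ⟨y, hy, ?_⟩
    have h1 := hb x k
    have h2 := dist_triangle_left (s x) y (u k x)
    have h3 : 3 * r / 2 ^ k = 2 * r / 2 ^ k + r / 2 ^ k := by ring
    linarith
  · intro x
    simpa [hu0] using hb x 0

end Glue

end Pool.Agent.MP_89350a_an
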