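import Mathlib
import Pool.Agent.MP_89350a_an.Select

open TopologicalSpace Topology Filter Set

namespace Pool.Agent.MP_89350a_an

variable {T : Type*} [TopologicalSpace T] [SecondCountableTopology T]
variable {𝕜 E : Type*} [NontriviallyNormedField 𝕜] [NormedAddCommGroup E] [NormedSpace 𝕜 E]

/-- A countable family of continuous selections that is pointwise dense. -/
lemma exists_dense_selections [CompleteSpace E] [SeparableSpace E]
    (hz : IsTopologicalBasis {s : Set T | IsClopen s})
    (F : T → ClosedSubmodule 𝕜 E)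
    (hF : ∀ U : Set E, IsOpen U → IsOpen {x | ((F x : Set E) ∩ U).Nonempty}) :
    ∃ g : ℕ → T → E, (∀ j, Continuous (g j)) ∧ (∀ j x, g j x ∈ F x) ∧
      ∀ x, ∀ v ∈ F x, ∀ ε > (0 : ℝ), ∃ j, dist v (g j x) < ε := by
  classical
  obtain ⟨B, hBs, hBc, hB⟩ := hz.exists_countable
  obtain ⟨d, hd⟩ := exists_dense_seq E
  have : Countable B := hBc.to_subtype
  have key : ∀ (p : B × ℕ × ℕ), ∃ g : T → E, Continuous g ∧ (∀ x, g x ∈ F x) ∧
      ((∀ x ∈ (p.1 : Set T), ((F x : Set E) ∩ Metric.ball (d p.2.1) (1 / (p.2.2 + 1 : ℝ))).Nonempty)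
        → ∀ x ∈ (p.1 : Set T), dist (d p.2.1) (g x) ≤ 2 * (1 / (p.2.2 + 1 : ℝ))) := by
    rintro ⟨D, k, m⟩
    by_cases h : ∀ x ∈ (D : Set T),
        ((F x : Set E) ∩ Metric.ball (d k) (1 / (m + 1 : ℝ))).Nonempty
    · have hD : IsClopen (D : Set T) := hBs D.2
      have hr : (0 : ℝ) < 1 / (m + 1 : ℝ) := by positivity
      obtain ⟨s, hs, hsF, hsd⟩ := exists_selection hz (fun x => (F x : Set E))
        (fun x => (F x).isClosed) hF (s₀ := (D : Set T).indicator fun _ => d k)
        (hD.continuous_indicator continuous_const) hr (by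
          intro x
          by_cases hx : x ∈ (D : Set T)
          · obtain ⟨y, hy1, hy2⟩ := h x hx
            refine ⟨y, hy1, ?_⟩
            rw [indicator_of_mem hx, dist_comm]
            exact hy2
          · refine ⟨0, (F x).toSubmodule.zero_mem, ?_⟩
            rw [indicator_of_notMem hx]
            simpa using hr)
      refine ⟨s, hs, hsF, fun _ x hx => ?_⟩
      have := hsd x
      rwa [indicator_of_mem hx] at this
    · exact ⟨fun _ => 0, continuous_const, fun x => (F x).toSubmodule.zero_mem,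
        fun h' => (h h').elim⟩
  choose g hgc hgF hgd using key
  obtain ⟨e, he⟩ := exists_surjective_nat (Option (B × ℕ × ℕ))
  refine ⟨fun j => (e j).elim (fun _ => 0) g, ?_, ?_, ?_⟩
  · intro j
    dsimp only
    cases e j with
    | none => exact continuous_const
    | some p => exact hgc p
  · intro j x
    dsimp only
    cases e j with
    | none => exact (F x).toSubmodule.zero_mem
    | some p => exact hgF p x
  · intro x v hv ε hε
    obtain ⟨m, hm⟩ := exists_nat_one_div_lt (show 0 < ε / 3 by positivity)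
    have hr : (0 : ℝ) < 1 / (m + 1 : ℝ) := by positivity
    obtain ⟨k, hk⟩ := hd.exists_dist_lt v hr
    have hx : x ∈ {x | ((F x : Set E) ∩ Metric.ball (d k) (1 / (m + 1 : ℝ))).Nonempty} :=
      ⟨v, hv, hk⟩
    obtain ⟨D, hD, hxD, hDs⟩ := hB.mem_nhds_iff.1 ((hF _ Metric.isOpen_ball).mem_nhds hx)
    obtain ⟨j, hj⟩ := he (some (⟨D, hD⟩, k, m))
    refine ⟨j, ?_⟩
    have h1 := hgd (⟨D, hD⟩, k, m) (fun y hy => hDs hy) x hxD
    simp only [hj, Option.elim]
    have h2 := dist_triangle v (d k) (g (⟨D, hD⟩, k, m) x)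
    simp only at h1
    linarith

omit [SecondCountableTopology T] in
lemma continuous_snoc {n : ℕ} {f : Fin n → T → E} (hf : ∀ i, Continuous (f i)) {s : T → E}
    (hs : Continuous s) :
    Continuous fun x => (Fin.snoc (fun i => f i x) (s x) : Fin (n + 1) → E) := by
  refine continuous_pi fun i => ?_
  refine Fin.lastCases ?_ (fun i => ?_) i
  · simpa using hs
  · simpa using hf i

/-- The inductive step: perturb a selection so that it leaves the span of the previous ones. -/
lemma exists_step [CompleteSpace 𝕜] [PseudoMetrizableSpace T]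
    (hz : IsTopologicalBasis {s : Set T | IsClopen s})
    (F : T → ClosedSubmodule 𝕜 E)
    {g : ℕ → T → E} (hgc : ∀ j, Continuous (g j)) (hgF : ∀ j x, g j x ∈ F x)
    (hgd : ∀ x, ∀ v ∈ F x, ∀ ε > (0 : ℝ), ∃ j, dist v (g j x) < ε)
    {n : ℕ} {f : Fin n → T → E} (hf : ∀ i, Continuous (f i))
    {d : T → E} (hd : Continuous d) (hdF : ∀ x, d x ∈ F x) {ε : ℝ} (hε : 0 < ε) :
    ∃ s : T → E, Continuous s ∧ (∀ x, s x ∈ F x) ∧ (∀ x, dist (s x) (d x) < ε) ∧
      ∀ x, ¬ FiniteDimensional 𝕜 (F x).toSubmodule → LinearIndependent 𝕜 (fun i => f i x) →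
        LinearIndependent 𝕜 (Fin.snoc (fun i => f i x) (s x) : Fin (n + 1) → E) := by
  set O : Set T := ⋃ j, {x | LinearIndependent 𝕜
    (Fin.snoc (fun i => f i x) (g j x) : Fin (n + 1) → E)} with hO
  have hopen : ∀ s : T → E, Continuous s → IsOpen {x | LinearIndependent 𝕜
      (Fin.snoc (fun i => f i x) (s x) : Fin (n + 1) → E)} := fun s hs =>
    isOpen_setOfPred_linearIndependent.preimage (continuous_snoc hf hs)
  have hOo : IsOpen O := isOpen_iUnion fun j => hopen _ (hgc j)
  obtain ⟨s, hs, hsP, hsd, hsε⟩ := exists_glue_near hz hOo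
    (fun x v => v ∈ F x ∧ LinearIndependent 𝕜 (Fin.snoc (fun i => f i x) v : Fin (n + 1) → E))
    hd hε (by
      intro x hx δ hδ
      obtain ⟨j, hj⟩ := mem_iUnion.1 hx
      obtain ⟨hfx, hgx⟩ := linearIndependent_finSnoc.1 hj
      have hex : ∃ t : 𝕜, ‖t • g j x‖ < δ ∧
          d x + t • g j x ∉ Submodule.span 𝕜 (range fun i => f i x) := by
        by_cases h0 : d x ∈ Submodule.span 𝕜 (range fun i => f i x)
        · have hc : Tendsto (fun t : 𝕜 => ‖t • g j x‖) (𝓝[≠] 0) (𝓝 0) := by
            have : Continuous fun t : 𝕜 => ‖t • g j x‖ := by fun_prop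
            simpa using (this.tendsto 0).mono_left nhdsWithin_le_nhds
          obtain ⟨t, ht1, ht2⟩ :=
            ((hc.eventually (gt_mem_nhds hδ)).and self_mem_nhdsWithin).exists
          refine ⟨t, ht1, fun h => hgx ?_⟩
          have h1 := Submodule.sub_mem _ h h0
          rw [add_sub_cancel_left] at h1
          exact (Submodule.smul_mem_iff _ ht2).1 h1
        · exact ⟨0, by simpa using hδ, by simpa using h0⟩
      obtain ⟨t, ht1, ht2⟩ := hex
      have hc : Continuous fun y => d y + t • g j y := hd.add ((hgc j).const_smul t)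
      refine ⟨fun y => d y + t • g j y, hc, by simpa [dist_eq_norm] using ht1, ?_⟩
      have hev := (hopen _ hc).mem_nhds (show x ∈ _ from linearIndependent_finSnoc.2 ⟨hfx, ht2⟩)
      filter_upwards [hev] with y hy
      exact ⟨(F y).toSubmodule.add_mem (hdF y) ((F y).toSubmodule.smul_mem t (hgF j y)), hy⟩)
  refine ⟨s, hs, ?_, hsε, ?_⟩
  · intro x
    by_cases hx : x ∈ O
    · exact (hsP x hx).1
    · rw [hsd x hx]; exact hdF x
  · intro x hinf hfx
    refine (hsP x ?_).2
    by_contra hx
    apply hinf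
    have hall : ∀ j, g j x ∈ Submodule.span 𝕜 (range fun i => f i x) := by
      intro j
      by_contra hj
      exact hx (mem_iUnion.2 ⟨j, linearIndependent_finSnoc.2 ⟨hfx, hj⟩⟩)
    have hfin : FiniteDimensional 𝕜 (Submodule.span 𝕜 (range fun i => f i x)) :=
      FiniteDimensional.span_of_finite 𝕜 (finite_range _)
    have hcl : IsClosed (Submodule.span 𝕜 (range fun i => f i x) : Set E) :=
      Submodule.closed_of_finiteDimensional _
    have hle : (F x).toSubmodule ≤ Submodule.span 𝕜 (range fun i => f i x) := by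
      intro v hv
      have : v ∈ closure (Submodule.span 𝕜 (range fun i => f i x) : Set E) := by
        rw [Metric.mem_closure_iff]
        intro ε hε
        obtain ⟨j, hj⟩ := hgd x v hv ε hε
        exact ⟨g j x, hall j, hj⟩
      rwa [hcl.closure_eq] at this
    exact Submodule.finiteDimensional_of_le hle

/-- Course-of-values recursion. -/
noncomputable def seqRec {α : Type*} (c : ∀ n, (Fin n → α) → α) : ℕ → α
  | n => c n fun i => seqRec c i
decreasing_by exact i.2

lemma seqRec_eq {α : Type*} (c : ∀ n, (Fin n → α) → α) (n : ℕ) :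
    seqRec c n = c n fun i => seqRec c i := by
  rw [seqRec]

/-- Dense, linearly independent continuous selections over a zero-dimensional base. -/
theorem exists_dense_indep [CompleteSpace 𝕜] [CompleteSpace E] [SeparableSpace E]
    [PseudoMetrizableSpace T]
    (hz : IsTopologicalBasis {s : Set T | IsClopen s})
    (F : T → ClosedSubmodule 𝕜 E)
    (hF : ∀ U : Set E, IsOpen U → IsOpen {x | ((F x : Set E) ∩ U).Nonempty}) :
    ∃ h : ℕ → T → E, (∀ i, Continuous (h i)) ∧
      (∀ x, (F x : Set E) = closure (range fun i => h i x)) ∧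
      ∀ x, ¬ FiniteDimensional 𝕜 (F x).toSubmodule → LinearIndependent 𝕜 fun i => h i x := by
  obtain ⟨g, hgc, hgF, hgd⟩ := exists_dense_selections hz F hF
  have step : ∀ (n : ℕ) (f : Fin n → T → E), ∃ s : T → E, (∀ i, Continuous (f i)) →
      Continuous s ∧ (∀ x, s x ∈ F x) ∧
      (∀ x, dist (s x) (g (Nat.unpair n).1 x) < 1 / (n + 1 : ℝ)) ∧
      ∀ x, ¬ FiniteDimensional 𝕜 (F x).toSubmodule → LinearIndependent 𝕜 (fun i => f i x) →
        LinearIndependent 𝕜 (Fin.snoc (fun i => f i x) (s x) : Fin (n + 1) → E) := by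
    intro n f
    by_cases hf : ∀ i, Continuous (f i)
    · obtain ⟨s, hs⟩ := exists_step hz F hgc hgF hgd hf (hgc (Nat.unpair n).1)
        (hgF (Nat.unpair n).1) (show (0 : ℝ) < 1 / (n + 1 : ℝ) by positivity)
      exact ⟨s, fun _ => hs⟩
    · exact ⟨fun _ => 0, fun h => (hf h).elim⟩
  choose c hc using step
  set h : ℕ → T → E := seqRec c with hh
  have hcont : ∀ n, Continuous (h n) := by
    intro n
    induction n using Nat.strong_induction_on with
    | _ n ih =>
      rw [hh, seqRec_eq]
      exact (hc n _ fun i => ih i i.2).1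
  have hspec : ∀ n, (∀ x, h n x ∈ F x) ∧
      (∀ x, dist (h n x) (g (Nat.unpair n).1 x) < 1 / (n + 1 : ℝ)) ∧
      ∀ x, ¬ FiniteDimensional 𝕜 (F x).toSubmodule →
        LinearIndependent 𝕜 (fun i : Fin n => h i x) →
        LinearIndependent 𝕜 (Fin.snoc (fun i : Fin n => h i x) (h n x) : Fin (n + 1) → E) := by
    intro n
    have := (hc n (fun i => h i) fun i => hcont i).2
    rwa [← seqRec_eq c n] at this
  refine ⟨h, hcont, ?_, ?_⟩
  · intro x
    apply Subset.antisymm
    · intro v hv
      rw [Metric.mem_closure_iff]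
      intro ε hε
      obtain ⟨j, hj⟩ := hgd x v hv (ε / 2) (half_pos hε)
      obtain ⟨m, hm⟩ := exists_nat_one_div_lt (half_pos hε)
      refine ⟨h (Nat.pair j m) x, mem_range_self _, ?_⟩
      have h1 := (hspec (Nat.pair j m)).2.1 x
      rw [Nat.unpair_pair] at h1
      have h2 : (1 : ℝ) / (Nat.pair j m + 1 : ℝ) ≤ 1 / (m + 1 : ℝ) := by
        have : (m : ℝ) ≤ Nat.pair j m := by exact_mod_cast Nat.right_le_pair j m
        gcongr
      have h3 := dist_triangle_right v (h (Nat.pair j m) x) (g j x)
      simp only at h1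
      linarith
    · refine closure_minimal ?_ (F x).isClosed
      rintro _ ⟨i, rfl⟩
      exact (hspec i).1 x
  · intro x hinf
    have hfin : ∀ n, LinearIndependent 𝕜 (fun i : Fin n => h i x) := by
      intro n
      induction n with
      | zero => exact linearIndependent_empty_type
      | succ n ih =>
        have := (hspec n).2.2 x hinf ih
        convert this using 1
        funext i
        refine Fin.lastCases ?_ (fun i => ?_) i <;> simp
    rw [linearIndependent_iff_finset_linearIndependent]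
    intro s
    obtain ⟨n, hn⟩ := s.exists_nat_subset_range
    exact (hfin n).comp (fun i : s => (⟨i, Finset.mem_range.1 (hn i.2)⟩ : Fin n))
      (fun a b hab => Subtype.ext (by simpa using hab))

end Pool.Agent.MP_89350a_an
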