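import Mathlib
import Pool.Agent.MP_89350a_an.Defs
import Pool.Agent.MP_89350a_an.Indep

open TopologicalSpace Topology Filter Set Pointwise

namespace Pool.Agent.MP_89350a_an

/-- A `Gδ` subset of a Polish space is Polish. -/
lemma polishSpace_of_isGδ {α : Type*} [TopologicalSpace α] [PolishSpace α] {s : Set α}
    (hs : IsGδ s) : PolishSpace s := by
  obtain ⟨U, hU, rfl⟩ := hs.eq_iInter_nat
  have : ∀ n, PolishSpace (U n) := fun n => (hU n).polishSpace
  let φ : (⋂ n, U n : Set α) → (∀ n, U n) := fun x n => ⟨x.1, mem_iInter.1 x.2 n⟩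
  have hφc : Continuous φ := continuous_pi fun n => continuous_subtype_val.subtype_mk _
  have hemb : IsEmbedding φ := by
    refine IsEmbedding.of_comp hφc (g := fun y : (∀ n, U n) => (y 0 : α))
      (continuous_subtype_val.comp (continuous_apply 0)) ?_
    exact IsEmbedding.subtypeVal
  have hr : range φ = ⋂ n, {y : (∀ n, U n) | (y n : α) = y 0} := by
    ext y
    simp only [mem_range, mem_iInter, mem_ofPred_eq]
    constructor
    · rintro ⟨x, rfl⟩ n
      rfl
    · intro h
      refine ⟨⟨y 0, mem_iInter.2 fun n => h n ▸ (y n).2⟩, ?_⟩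
      funext n
      exact Subtype.ext (h n).symm
  have hcl : IsClosed (range φ) := by
    rw [hr]
    exact isClosed_iInter fun n => isClosed_eq (continuous_subtype_val.comp (continuous_apply n))
      (continuous_subtype_val.comp (continuous_apply 0))
  exact (IsClosedEmbedding.mk hemb hcl).polishSpace

variable {𝕜 E : Type*} [NontriviallyNormedField 𝕜] [NormedAddCommGroup E] [NormedSpace 𝕜 E]

open Classical in
/-- The code of a closed subspace with respect to a sequence of open sets. -/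
noncomputable def code (𝕜 : Type*) [NontriviallyNormedField 𝕜] [NormedSpace 𝕜 E]
    (U : ℕ → Set E) (X : ClosedSubmodule 𝕜 E) : ℕ → Bool :=
  fun n => decide (X ∈ hits 𝕜 (U n))

lemma code_eq_true {U : ℕ → Set E} {X : ClosedSubmodule 𝕜 E} {n : ℕ} :
    code 𝕜 U X n = true ↔ ((X : Set E) ∩ U n).Nonempty := by
  classical
  unfold code
  exact decide_eq_true_iff

lemma code_injective {U : ℕ → Set E} (hU : IsTopologicalBasis (range U)) :
    Function.Injective (code 𝕜 U) := by
  have key : ∀ X Y : ClosedSubmodule 𝕜 E, code 𝕜 U X = code 𝕜 U Y → (X : Set E) ⊆ Y := by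
    intro X Y h x hx
    rw [← Y.isClosed.closure_eq, hU.mem_closure_iff]
    rintro _ ⟨n, rfl⟩ hxn
    have : code 𝕜 U Y n = true := by
      rw [← h]; exact code_eq_true.2 ⟨x, hx, hxn⟩
    rw [inter_comm]
    exact code_eq_true.1 this
  intro X Y h
  exact SetLike.coe_injective (Subset.antisymm (key X Y h) (key Y X h.symm))

/-- The conditions describing the range of `code`. -/
structure IsCode (𝕜 : Type*) [NontriviallyNormedField 𝕜] [NormedSpace 𝕜 E]
    (U : ℕ → Set E) (φ : ℕ → Bool) : Prop where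
  zero : ∀ n, (0 : E) ∈ U n → φ n = true
  add : ∀ a b c, (∀ x ∈ U a, ∀ y ∈ U b, x + y ∈ U c) → φ a = true → φ b = true → φ c = true
  smul : ∀ (t : 𝕜) a c, (∀ x ∈ U a, t • x ∈ U c) → φ a = true → φ c = true
  nonempty : ∀ n, φ n = true → (U n).Nonempty
  shrink : ∀ n k : ℕ, φ n = true → ∃ m, closure (U m) ⊆ U n ∧
    (∀ x ∈ U m, ∀ y ∈ U m, dist x y ≤ 1 / (k + 1 : ℝ)) ∧ φ m = true

lemma isCode_code {U : ℕ → Set E} (hU : IsTopologicalBasis (range U))
    (X : ClosedSubmodule 𝕜 E) : IsCode 𝕜 U (code 𝕜 U X) where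
  zero n hn := code_eq_true.2 ⟨0, X.toSubmodule.zero_mem, hn⟩
  add a b c h ha hb := by
    obtain ⟨x, hx, hxa⟩ := code_eq_true.1 ha
    obtain ⟨y, hy, hyb⟩ := code_eq_true.1 hb
    exact code_eq_true.2 ⟨x + y, X.toSubmodule.add_mem hx hy, h x hxa y hyb⟩
  smul t a c h ha := by
    obtain ⟨x, hx, hxa⟩ := code_eq_true.1 ha
    exact code_eq_true.2 ⟨t • x, X.toSubmodule.smul_mem t hx, h x hxa⟩
  nonempty n hn := (code_eq_true.1 hn).mono inter_subset_right
  shrink n k hn := by
    obtain ⟨x, hx, hxn⟩ := code_eq_true.1 hn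
    have hn' : U n ∈ 𝓝 x := (hU.isOpen (mem_range_self n)).mem_nhds hxn
    obtain ⟨C, hC, hCc, hCs⟩ := exists_mem_nhds_isClosed_subset hn'
    have hr : (0 : ℝ) < 1 / (k + 1 : ℝ) / 2 := by positivity
    obtain ⟨_, ⟨m, rfl⟩, hxm, hm⟩ := hU.mem_nhds_iff.1 (inter_mem hC (Metric.ball_mem_nhds x hr))
    refine ⟨m, (closure_minimal (hm.trans inter_subset_left) hCc).trans hCs, ?_,
      code_eq_true.2 ⟨x, hx, hxm⟩⟩
    intro y hy z hz
    have h1 : dist y x < _ := (hm hy).2
    have h2 : dist z x < _ := (hm hz).2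
    have h3 := dist_triangle_right y z x
    linarith

lemma exists_code_eq [CompleteSpace E] {U : ℕ → Set E} (hU : IsTopologicalBasis (range U))
    {φ : ℕ → Bool} (hφ : IsCode 𝕜 U φ) : ∃ X : ClosedSubmodule 𝕜 E, code 𝕜 U X = φ := by
  have hUo : ∀ n, IsOpen (U n) := fun n => hU.isOpen (mem_range_self n)
  let S : Submodule 𝕜 E :=
    { carrier := {x | ∀ n, x ∈ U n → φ n = true}
      zero_mem' := hφ.zero
      add_mem' := by
        intro x y hx hy c hc
        have h1 : (fun p : E × E => p.1 + p.2) ⁻¹' U c ∈ 𝓝 (x, y) :=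
          continuous_add.continuousAt.preimage_mem_nhds ((hUo c).mem_nhds hc)
        obtain ⟨A, hA, B, hB, hAB⟩ := mem_nhds_prod_iff.1 h1
        obtain ⟨_, ⟨a, rfl⟩, hxa, ha⟩ := hU.mem_nhds_iff.1 hA
        obtain ⟨_, ⟨b, rfl⟩, hyb, hb⟩ := hU.mem_nhds_iff.1 hB
        exact hφ.add a b c (fun u hu v hv => hAB (mk_mem_prod (ha hu) (hb hv))) (hx a hxa)
          (hy b hyb)
      smul_mem' := by
        intro t x hx c hc
        have h1 : (fun u : E => t • u) ⁻¹' U c ∈ 𝓝 x :=
          (continuous_const_smul t).continuousAt.preimage_mem_nhds ((hUo c).mem_nhds hc)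
        obtain ⟨_, ⟨a, rfl⟩, hxa, ha⟩ := hU.mem_nhds_iff.1 h1
        exact hφ.smul t a c (fun u hu => ha hu) (hx a hxa) }
  have hS : IsClosed (S : Set E) := by
    have : (S : Set E) = ⋂ n ∈ {n | φ n ≠ true}, (U n)ᶜ := by
      ext x
      simp only [mem_iInter, mem_compl_iff, mem_ofPred_eq]
      exact ⟨fun h n hn hx => hn (h n hx), fun h n hx => by_contra fun hn => h n hn hx⟩
    rw [this]
    exact isClosed_biInter fun n _ => (hUo n).isClosed_compl
  refine ⟨⟨S, hS⟩, ?_⟩
  funext n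
  rw [Bool.eq_iff_iff, code_eq_true]
  constructor
  · rintro ⟨x, hx, hxn⟩
    exact hx n hxn
  · intro hn
    have hsh : ∀ n k : ℕ, ∃ m, φ n = true → closure (U m) ⊆ U n ∧
        (∀ x ∈ U m, ∀ y ∈ U m, dist x y ≤ 1 / (k + 1 : ℝ)) ∧ φ m = true := by
      intro n k
      by_cases h : φ n = true
      · obtain ⟨m, hm⟩ := hφ.shrink n k h
        exact ⟨m, fun _ => hm⟩
      · exact ⟨0, fun h' => (h h').elim⟩
    choose nxt hnxt using hsh
    let u : ℕ → ℕ := fun k => Nat.rec n (fun k m => nxt m k) k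
    have hus : ∀ k, u (k + 1) = nxt (u k) k := fun k => rfl
    have hφu : ∀ k, φ (u k) = true := by
      intro k
      induction k with
      | zero => exact hn
      | succ k ih => rw [hus]; exact (hnxt _ _ ih).2.2
    have hcl : ∀ k, closure (U (u (k + 1))) ⊆ U (u k) := fun k => (hnxt _ k (hφu k)).1
    have hdi : ∀ k : ℕ, ∀ x ∈ U (u (k + 1)), ∀ y ∈ U (u (k + 1)), dist x y ≤ 1 / (k + 1 : ℝ) :=
      fun k => (hnxt _ k (hφu k)).2.1
    have hanti : Antitone fun k => U (u k) :=
      antitone_nat_of_succ_le fun k => subset_closure.trans (hcl k)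
    choose x hx using fun k => hφ.nonempty _ (hφu k)
    have hcau : CauchySeq x := by
      rw [Metric.cauchySeq_iff']
      intro ε hε
      obtain ⟨k, hk⟩ := exists_nat_one_div_lt hε
      exact ⟨k + 1, fun j hj => (hdi k _ (hanti hj (hx j)) _ (hx (k + 1))).trans_lt hk⟩
    obtain ⟨z, hz⟩ := cauchySeq_tendsto_of_complete hcau
    have hzU : ∀ k, z ∈ U (u k) := by
      intro k
      refine hcl k (mem_closure_of_tendsto hz ?_)
      filter_upwards [eventually_ge_atTop (k + 1)] with j hj using hanti hj (hx j)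
    refine ⟨z, ?_, hzU 0⟩
    intro m hm
    obtain ⟨ε, hε, hball⟩ := Metric.isOpen_iff.1 (hUo m) z hm
    obtain ⟨k, hk⟩ := exists_nat_one_div_lt hε
    refine hφ.smul 1 (u (k + 1)) m (fun y hy => ?_) (hφu (k + 1))
    rw [one_smul]
    exact hball ((hdi k _ hy _ (hzU (k + 1))).trans_lt hk)

lemma isGδ_isCode (U : ℕ → Set E) : IsGδ {φ : ℕ → Bool | IsCode 𝕜 U φ} := by
  have hcl : ∀ n, IsClopen {φ : ℕ → Bool | φ n = true} := fun n =>
    (isClopen_discrete ({true} : Set Bool)).preimage (continuous_apply n)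
  have himp : ∀ {A B : Set (ℕ → Bool)}, IsClopen A → IsClopen B →
      IsClopen {φ | φ ∈ A → φ ∈ B} := by
    intro A B hA hB
    convert hA.compl.union hB using 1
    ext φ
    simp [imp_iff_not_or]
  have hconst : ∀ p : Prop, IsClopen {_φ : ℕ → Bool | p} := by
    intro p
    by_cases h : p <;> simp [h, isClopen_univ, isClopen_empty]
  have h1 : IsClosed {φ : ℕ → Bool | ∀ n, (0 : E) ∈ U n → φ n = true} := by
    simp only [ofPred_forall]
    exact isClosed_iInter fun n => isClosed_iInter fun _ => (hcl n).isClosed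
  have h2 : IsClosed {φ : ℕ → Bool | ∀ a b c, (∀ x ∈ U a, ∀ y ∈ U b, x + y ∈ U c) →
      φ a = true → φ b = true → φ c = true} := by
    rw [ofPred_forall]; refine isClosed_iInter fun a => ?_
    rw [ofPred_forall]; refine isClosed_iInter fun b => ?_
    rw [ofPred_forall]; refine isClosed_iInter fun c => ?_
    exact (himp (hconst _) (himp (hcl a) (himp (hcl b) (hcl c)))).isClosed
  have h3 : IsClosed {φ : ℕ → Bool | ∀ (t : 𝕜) a c, (∀ x ∈ U a, t • x ∈ U c) →
      φ a = true → φ c = true} := by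
    rw [ofPred_forall]; refine isClosed_iInter fun t => ?_
    rw [ofPred_forall]; refine isClosed_iInter fun a => ?_
    rw [ofPred_forall]; refine isClosed_iInter fun c => ?_
    exact (himp (hconst _) (himp (hcl a) (hcl c))).isClosed
  have h4 : IsClosed {φ : ℕ → Bool | ∀ n, φ n = true → (U n).Nonempty} := by
    rw [ofPred_forall]; refine isClosed_iInter fun n => ?_
    exact (himp (hcl n) (hconst _)).isClosed
  have h5 : IsGδ {φ : ℕ → Bool | ∀ n k : ℕ, φ n = true → ∃ m, closure (U m) ⊆ U n ∧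
      (∀ x ∈ U m, ∀ y ∈ U m, dist x y ≤ 1 / (k + 1 : ℝ)) ∧ φ m = true} := by
    rw [ofPred_forall]; refine IsGδ.iInter fun n => ?_
    rw [ofPred_forall]; refine IsGδ.iInter fun k => ?_
    refine IsOpen.isGδ ?_
    have : {φ : ℕ → Bool | φ n = true → ∃ m, closure (U m) ⊆ U n ∧
        (∀ x ∈ U m, ∀ y ∈ U m, dist x y ≤ 1 / (k + 1 : ℝ)) ∧ φ m = true} =
        {φ : ℕ → Bool | φ n = true}ᶜ ∪ ⋃ m, ({_φ | closure (U m) ⊆ U n} ∩
          ({_φ | ∀ x ∈ U m, ∀ y ∈ U m, dist x y ≤ 1 / (k + 1 : ℝ)} ∩ {φ | φ m = true})) := by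
      ext φ
      simp only [mem_ofPred_eq, mem_union, mem_compl_iff, mem_iUnion, mem_inter_iff]
      exact imp_iff_not_or
    rw [this]
    exact (hcl n).compl.isOpen.union (isOpen_iUnion fun m =>
      ((hconst _).inter ((hconst _).inter (hcl m))).isOpen)
  convert (((h1.isGδ.inter h2.isGδ).inter h3.isGδ).inter h4.isGδ).inter h5 using 1
  ext φ
  exact ⟨fun h => ⟨⟨⟨⟨h.zero, h.add⟩, h.smul⟩, h.nonempty⟩, h.shrink⟩,
    fun h => ⟨h.1.1.1.1, h.1.1.1.2, h.1.1.2, h.1.2, h.2⟩⟩

/-- The main theorem in a general separable Banach space. -/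
theorem exists_admissible [CompleteSpace 𝕜] [CompleteSpace E] [SeparableSpace E] :
    ∃ τ : TopologicalSpace (ClosedSubmodule 𝕜 E), IsAdmissible τ ∧
      IsClosed[@instTopologicalSpaceProd E _ inferInstance τ]
        {p : E × ClosedSubmodule 𝕜 E | p.1 ∈ p.2} ∧
      ∃ h : ℕ → ClosedSubmodule 𝕜 E → E,
        (∀ i, Continuous[τ, inferInstance] (h i)) ∧
        (∀ X : ClosedSubmodule 𝕜 E, (X : Set E) = closure (range fun i => h i X)) ∧
        ∀ X : ClosedSubmodule 𝕜 E, ¬ FiniteDimensional 𝕜 X.toSubmodule →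
          LinearIndependent 𝕜 fun i => h i X := by
  have : SecondCountableTopology E := UniformSpace.secondCountable_of_separable E
  obtain ⟨U, hU⟩ : ∃ U : ℕ → Set E, IsTopologicalBasis (range U) := by
    obtain ⟨U, hU⟩ := ((countable_countableBasis E).insert ∅).exists_eq_range (insert_nonempty _ _)
    exact ⟨U, hU ▸ (isBasis_countableBasis E).insert_empty⟩
  have hUo : ∀ n, IsOpen (U n) := fun n => hU.isOpen (mem_range_self n)
  let τ : TopologicalSpace (ClosedSubmodule 𝕜 E) := induced (code 𝕜 U) inferInstance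
  have hemb : IsEmbedding (code 𝕜 U) := ⟨⟨rfl⟩, code_injective hU⟩
  have hrange : range (code 𝕜 U) = {φ : ℕ → Bool | IsCode 𝕜 U φ} := by
    ext φ
    exact ⟨by rintro ⟨X, rfl⟩; exact isCode_code hU X, fun h => exists_code_eq hU h⟩
  have hPB : PolishSpace (ℕ → Bool) := by
    have : SeparableSpace (ℕ → Bool) := inferInstance
    have : IsCompletelyMetrizableSpace (ℕ → Bool) := inferInstance
    infer_instance
  have hP : PolishSpace (range (code 𝕜 U)) := polishSpace_of_isGδ (hrange ▸ isGδ_isCode U)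
  have hPol : PolishSpace (ClosedSubmodule 𝕜 E) := hemb.toHomeomorph.isClosedEmbedding.polishSpace
  have hclo : ∀ n, IsClopen (hits 𝕜 (U n)) := by
    intro n
    have : hits 𝕜 (U n) = (fun X => code 𝕜 U X n) ⁻¹' {true} := by
      ext X
      simp only [mem_preimage, mem_singleton_iff, code_eq_true]
      rfl
    rw [this]
    exact (isClopen_discrete _).preimage ((continuous_apply n).comp hemb.continuous)
  have hopen : ∀ V : Set E, IsOpen V → IsOpen (hits 𝕜 V) := by
    intro V hV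
    rw [isOpen_iff_mem_nhds]
    rintro X ⟨x, hx, hxV⟩
    obtain ⟨_, ⟨n, rfl⟩, hxn, hn⟩ := hU.mem_nhds_iff.1 (hV.mem_nhds hxV)
    filter_upwards [(hclo n).isOpen.mem_nhds ⟨x, hx, hxn⟩] with Y hY
    exact hY.mono (inter_subset_inter_right _ hn)
  have hz : IsTopologicalBasis {s : Set (ClosedSubmodule 𝕜 E) | IsClopen s} := by
    refine isTopologicalBasis_of_isOpen_of_nhds (fun s hs => hs.isOpen) ?_
    intro X W hXW hW
    obtain ⟨V, hV, rfl⟩ := hemb.isInducing.isOpen_iff.1 hW
    obtain ⟨C, hC, hXC, hCV⟩ := (isTopologicalBasis_isClopen (X := ℕ → Bool)).exists_subset_of_mem_open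
      (show code 𝕜 U X ∈ V from hXW) hV
    exact ⟨_, IsClopen.preimage hC hemb.continuous, hXC, preimage_mono hCV⟩
  refine ⟨τ, ⟨hPol, hopen, ?_⟩, ?_, exists_dense_indep hz (fun X => X) hopen⟩
  · refine ⟨range (fun n => hits 𝕜 (U n)) ∪ range (fun n => (hits 𝕜 (U n))ᶜ), ?_, ?_⟩
    · apply le_antisymm
      · refine le_generateFrom ?_
        rintro s (⟨n, rfl⟩ | ⟨n, rfl⟩)
        · exact (hclo n).isOpen
        · exact (hclo n).compl.isOpen
      · refine continuous_iff_le_induced.1 ?_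
        let σ : TopologicalSpace (ClosedSubmodule 𝕜 E) := generateFrom
          (range (fun n => hits 𝕜 (U n)) ∪ range (fun n => (hits 𝕜 (U n))ᶜ))
        refine @continuous_pi _ _ _ σ _ _ fun n => ?_
        refine (@continuous_discrete_rng _ _ σ _ _ _).2 fun b => ?_
        refine isOpen_generateFrom_of_mem ?_
        cases b with
        | true =>
          refine Or.inl ⟨n, ?_⟩
          ext X
          simp only [mem_preimage, mem_singleton_iff, code_eq_true]
          rfl
        | false =>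
          refine Or.inr ⟨n, ?_⟩
          ext X
          simp only [mem_preimage, mem_singleton_iff, mem_compl_iff, ← Bool.not_eq_true,
            code_eq_true]
          rfl
    · rintro s (⟨n, rfl⟩ | ⟨n, rfl⟩)
      · refine ⟨fun _ => U n, fun _ => ∅, fun _ => hUo n, fun _ => isOpen_empty, ?_⟩
        ext X
        simp [hits]
      · refine ⟨fun _ => univ, fun _ => U n, fun _ => isOpen_univ, fun _ => hUo n, ?_⟩
        ext X
        have : ((X : Set E) ∩ univ).Nonempty := ⟨0, X.toSubmodule.zero_mem, mem_univ _⟩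
        simp only [mem_compl_iff, mem_iUnion, Set.mem_sdiff, exists_const]
        exact ⟨fun h => ⟨this, h⟩, fun h => h.2⟩
  · rw [← isOpen_compl_iff, isOpen_iff_mem_nhds]
    rintro ⟨x, X⟩ hx
    have hx' : x ∈ (X : Set E)ᶜ := hx
    obtain ⟨_, ⟨n, rfl⟩, hxn, hn⟩ := hU.mem_nhds_iff.1 (X.isClosed.isOpen_compl.mem_nhds hx')
    have hX : X ∈ (hits 𝕜 (U n))ᶜ := by
      rintro ⟨y, hy, hyn⟩
      exact hn hyn hy
    filter_upwards [prod_mem_nhds ((hUo n).mem_nhds hxn) ((hclo n).compl.isOpen.mem_nhds hX)]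
    rintro ⟨y, Y⟩ ⟨hy, hY⟩ hyY
    exact hY ⟨y, hyY, hy⟩

end Pool.Agent.MP_89350a_an
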