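import Mathlib
import Pool.Agent.MP_d539bc_co.Brouwer

open Topology Filter Set Metric

namespace Pool.Agent.MP_89350a_an

/-- escaping bump functions -/
noncomputable def bump (k : ℕ) (s : ℝ) : ℝ := k * max 0 (min (4 * k * s - 1) (2 - k * s))

lemma continuous_bump (k : ℕ) : Continuous (bump k) := by
  unfold bump; fun_prop

lemma bump_nonneg (k : ℕ) (s : ℝ) : 0 ≤ bump k s := mul_nonneg (Nat.cast_nonneg _) (le_max_left _ _)

lemma bump_small {k : ℕ} {s : ℝ} (h : k * s ≤ 1 / 4) : bump k s = 0 := by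
  unfold bump
  rw [max_eq_left ((min_le_left _ _).trans (by linarith)), mul_zero]

lemma bump_large {k : ℕ} {s : ℝ} (h : 2 ≤ k * s) : bump k s = 0 := by
  unfold bump
  rw [max_eq_left ((min_le_right _ _).trans (by linarith)), mul_zero]

lemma exists_bump {s : ℝ} (h0 : 0 < s) (h1 : s ≤ 1) : ∃ k, 1 ≤ 2 * s * bump k s := by
  have hs : 1 ≤ 1 / s := by rw [le_div_iff₀ h0]; linarith
  refine ⟨⌊1 / s⌋₊, ?_⟩
  have a1 : (⌊1 / s⌋₊ : ℝ) ≤ 1 / s := Nat.floor_le (by positivity)
  have a2 : 1 / s < ⌊1 / s⌋₊ + 1 := Nat.lt_floor_add_one _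
  have a3 : (1 : ℝ) ≤ ⌊1 / s⌋₊ := by exact_mod_cast Nat.le_floor (by simpa using hs)
  set k : ℝ := (⌊1 / s⌋₊ : ℝ) with hk
  have b1 : k * s ≤ 1 := by rwa [le_div_iff₀ h0] at a1
  have b2 : 1 < (k + 1) * s := by rwa [div_lt_iff₀ h0] at a2
  have b3 : 1 / 2 ≤ k * s := by nlinarith
  have b4 : 1 ≤ max 0 (min (4 * k * s - 1) (2 - k * s)) :=
    le_max_of_le_right (le_min (by nlinarith) (by linarith))
  unfold bump
  rw [← hk]
  nlinarith

variable {𝕜 : Type} [RCLike 𝕜]

/-- the condition defining one block -/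
structure Cond (b w : EuclideanSpace 𝕜 (Fin 2)) (f : ℕ → 𝕜) : Prop where
  esc : ∀ k, f k = inner 𝕜 b w * (bump k (1 - ‖b‖) : 𝕜)
  tan : 1 ≤ ‖b‖ → inner 𝕜 b w = 0

/-- elements of the block at `b` can be approximated by elements of the block at `b'` -/
def Appr (M : ℕ) (R η : ℝ) (b b' : EuclideanSpace 𝕜 (Fin 2)) : Prop :=
  ∀ w f, Cond b w f → ‖w‖ ≤ R → (∀ k, ‖f k‖ ≤ R) →
    ∃ w' f', Cond b' w' f' ∧ ‖w' - w‖ ≤ η ∧ (∀ k < M, ‖f' k - f k‖ ≤ η) ∧ ∀ k, M ≤ k → f' k = 0

lemma block (a : EuclideanSpace 𝕜 (Fin 2)) : ∃ M0 : ℕ, ∀ M, M0 ≤ M → ∀ R η : ℝ, 0 < R → 0 < η →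
    ∃ Q ∈ 𝓝 a, ∀ b ∈ Q, ∀ b' ∈ Q, Appr M R η b b' := by
  rcases lt_or_ge ‖a‖ 1 with ha | ha
  · have hs : 0 < 1 - ‖a‖ := sub_pos.2 ha
    obtain ⟨M0, hM0⟩ := exists_nat_ge (4 / (1 - ‖a‖))
    refine ⟨M0, fun M hM R η hR hη => ?_⟩
    let G : ℕ → EuclideanSpace 𝕜 (Fin 2) → EuclideanSpace 𝕜 (Fin 2) :=
      fun k b => (bump k (1 - ‖b‖) : 𝕜) • b
    have hG : ∀ k, Continuous (G k) := fun k => by
      have h : Continuous fun b : EuclideanSpace 𝕜 (Fin 2) => (bump k (1 - ‖b‖) : 𝕜) :=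
        RCLike.continuous_ofReal.comp ((continuous_bump k).comp
          (show Continuous fun b : EuclideanSpace 𝕜 (Fin 2) => 1 - ‖b‖ by fun_prop))
      exact h.fun_smul continuous_id'
    have h1 : ∀ᶠ b in 𝓝 a, ∀ k ∈ Finset.range M, ‖G k b - G k a‖ < η / R / 2 := by
      rw [Finset.eventually_all]
      intro k _
      have := (hG k).continuousAt.eventually (ball_mem_nhds (G k a)
        (show 0 < η / R / 2 by positivity))
      filter_upwards [this] with b hb
      rwa [← dist_eq_norm]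
    have h2 : ∀ᶠ b in 𝓝 a, (1 - ‖a‖) / 2 < 1 - ‖b‖ :=
      (show Continuous fun b : EuclideanSpace 𝕜 (Fin 2) => 1 - ‖b‖ by
        fun_prop).continuousAt.eventually (lt_mem_nhds (by linarith))
    refine ⟨_, h1.and h2, ?_⟩
    rintro b ⟨hb1, -⟩ b' ⟨hb1', hb2'⟩ w f hc hw -
    refine ⟨w, fun k => inner 𝕜 b' w * (bump k (1 - ‖b'‖) : 𝕜), ⟨fun k => rfl, fun h => ?_⟩,
      by simpa using hη.le, fun k hk => ?_, fun k hk => ?_⟩
    · linarith
    · have e : inner 𝕜 b' w * (bump k (1 - ‖b'‖) : 𝕜) - f k = inner 𝕜 (G k b' - G k b) w := by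
        rw [hc.esc k, inner_sub_left]
        simp only [G, inner_smul_left, RCLike.conj_ofReal]
        ring
      rw [e]
      have e1 := hb1 k (Finset.mem_range.2 hk)
      have e2 := hb1' k (Finset.mem_range.2 hk)
      have e3 : ‖G k b' - G k b‖ ≤ η / R := by
        have := norm_sub_le (G k b' - G k a) (G k b - G k a)
        rw [sub_sub_sub_cancel_right] at this
        linarith
      calc _ ≤ ‖G k b' - G k b‖ * ‖w‖ := norm_inner_le_norm _ _
        _ ≤ η / R * R := by gcongr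
        _ = η := by field_simp
    · have e1 : (4 / (1 - ‖a‖)) ≤ k := hM0.trans (by exact_mod_cast hM.trans hk)
      rw [div_le_iff₀ hs] at e1
      have e2 : 2 ≤ (k : ℝ) * (1 - ‖b'‖) := by
        have : (0 : ℝ) ≤ k := Nat.cast_nonneg _
        nlinarith
      simp [bump_large e2]
  · refine ⟨0, fun M _ R η hR hη => ?_⟩
    obtain ⟨δ, hδ, hδ1, hδ2, hδ3⟩ : ∃ δ : ℝ, 0 < δ ∧ δ ≤ 1 / 2 ∧ M * δ ≤ 1 / 4 ∧ 8 * δ * R ≤ η := by
      refine ⟨min (1 / (4 * (M + 1))) (η / (8 * R)), by positivity, ?_, ?_, ?_⟩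
      · refine (min_le_left _ _).trans ?_
        apply one_div_le_one_div_of_le (by norm_num)
        have : (0 : ℝ) ≤ M := Nat.cast_nonneg _
        linarith
      · have h1 : min (1 / (4 * ((M : ℝ) + 1))) (η / (8 * R)) ≤ 1 / (4 * (M + 1)) := min_le_left _ _
        have h2 : (M : ℝ) * (1 / (4 * (M + 1))) ≤ 1 / 4 := by
          rw [mul_one_div, div_le_div_iff₀ (by positivity) (by positivity)]
          linarith
        exact (mul_le_mul_of_nonneg_left h1 (Nat.cast_nonneg _)).trans h2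
      · have h1 : min (1 / (4 * ((M : ℝ) + 1))) (η / (8 * R)) ≤ η / (8 * R) := min_le_right _ _
        rw [le_div_iff₀ (by positivity)] at h1
        linarith
    refine ⟨ball a δ, ball_mem_nhds a hδ, ?_⟩
    intro b hb b' hb' w f hc hw hf
    rw [mem_ball, dist_eq_norm] at hb hb'
    have n1 : 1 - ‖b‖ ≤ δ := by
      have := norm_sub_norm_le a b
      rw [norm_sub_rev] at this
      linarith
    have n2 : 1 / 2 ≤ ‖b'‖ := by
      have := norm_sub_norm_le a b'
      rw [norm_sub_rev] at this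
      linarith
    have i1 : ‖inner 𝕜 b w‖ ≤ 2 * δ * R := by
      rcases lt_or_ge ‖b‖ 1 with h | h
      · obtain ⟨k, hk⟩ := exists_bump (sub_pos.2 h) (by linarith [norm_nonneg b])
        have e1 := hf k
        rw [hc.esc k, norm_mul, RCLike.norm_ofReal, abs_of_nonneg (bump_nonneg _ _)] at e1
        have e2 := norm_nonneg (inner 𝕜 b w)
        have e3 := bump_nonneg k (1 - ‖b‖)
        calc ‖inner 𝕜 b w‖ ≤ ‖inner 𝕜 b w‖ * (2 * (1 - ‖b‖) * bump k (1 - ‖b‖)) := by nlinarith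
          _ = 2 * (1 - ‖b‖) * (‖inner 𝕜 b w‖ * bump k (1 - ‖b‖)) := by ring
          _ ≤ 2 * δ * R := by
            have : 0 ≤ 1 - ‖b‖ := by linarith
            gcongr
      · rw [hc.tan h, norm_zero]; positivity
    have i2 : ‖inner 𝕜 b' w‖ ≤ 4 * δ * R := by
      have e1 : inner 𝕜 b' w = inner 𝕜 b w + inner 𝕜 (b' - b) w := by rw [inner_sub_left]; ring
      have e2 : ‖b' - b‖ ≤ 2 * δ := by
        have := norm_sub_le (b' - a) (b - a)
        rw [sub_sub_sub_cancel_right] at this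
        linarith
      have e3 : ‖inner 𝕜 (b' - b) w‖ ≤ 2 * δ * R :=
        (norm_inner_le_norm _ _).trans (by gcongr)
      rw [e1]
      exact (norm_add_le _ _).trans (by linarith)
    have hb0 : (‖b'‖ : 𝕜) ≠ 0 := by
      rw [RCLike.ofReal_ne_zero]; linarith
    have o1 : inner 𝕜 b' (w - (inner 𝕜 b' w / (‖b'‖ : 𝕜) ^ 2) • b') = 0 := by
      rw [inner_sub_right, inner_smul_right, inner_self_eq_norm_sq_to_K]
      field_simp
      ring
    refine ⟨w - (inner 𝕜 b' w / (‖b'‖ : 𝕜) ^ 2) • b', fun _ => 0,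
      ⟨fun k => by rw [o1, zero_mul], fun _ => o1⟩, ?_, fun k hk => ?_, fun _ _ => rfl⟩
    · rw [sub_sub_cancel_left, norm_neg, norm_smul, norm_div, norm_pow, RCLike.norm_ofReal,
        abs_norm]
      have : ‖inner 𝕜 b' w‖ / ‖b'‖ ^ 2 * ‖b'‖ = ‖inner 𝕜 b' w‖ / ‖b'‖ := by
        field_simp
      rw [this, div_le_iff₀ (by linarith)]
      nlinarith
    · have e1 : (k : ℝ) * (1 - ‖b‖) ≤ 1 / 4 := by
        have h1 : (k : ℝ) ≤ M := by exact_mod_cast hk.le
        have h2 : (0 : ℝ) ≤ k := Nat.cast_nonneg _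
        nlinarith
      rw [hc.esc k, bump_small e1]
      simpa using hη.le

lemma exists_orth (b : EuclideanSpace 𝕜 (Fin 2)) :
    ∃ w : EuclideanSpace 𝕜 (Fin 2), w ≠ 0 ∧ inner 𝕜 b w = 0 := by
  by_cases hb : b = 0
  · exact ⟨EuclideanSpace.single 0 1, by simp, by simp [hb]⟩
  · refine ⟨WithLp.toLp 2 ![-(starRingEnd 𝕜) (b 1), (starRingEnd 𝕜) (b 0)], ?_, ?_⟩
    · intro h
      apply hb
      have h0 := congrArg (fun v : EuclideanSpace 𝕜 (Fin 2) => v 0) h
      have h1 := congrArg (fun v : EuclideanSpace 𝕜 (Fin 2) => v 1) h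
      simp at h0 h1
      ext i
      fin_cases i <;> simp [h0, h1]
    · simp [PiLp.inner_apply, Fin.sum_univ_two]
      ring

lemma fixed_normed {E : Type} [NormedAddCommGroup E] [NormedSpace ℝ E] [FiniteDimensional ℝ E]
    (F : E → E) (hF : Continuous F) {M : ℝ} (hM : ∀ x, ‖F x‖ ≤ M) : ∃ x, F x = x := by
  let e := toEuclidean (E := E)
  obtain ⟨x, hx⟩ := Pool.Agent.MP_d539bc_co.fixed_of_bounded (fun y => e (F (e.symm y)))
    (by fun_prop) (M := ‖e.toContinuousLinearMap‖ * M) (fun y => by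
      have := e.toContinuousLinearMap.le_opNorm (F (e.symm y))
      exact this.trans (mul_le_mul_of_nonneg_left (hM _) (norm_nonneg _)))
  exact ⟨e.symm x, e.injective (by rw [hx]; simp)⟩

/-- A continuous family of vector fields tangent to the spheres has a common zero. -/
theorem exists_common_zero (v : (ℕ → EuclideanSpace 𝕜 (Fin 2)) → ℕ → EuclideanSpace 𝕜 (Fin 2))
    (hv : Continuous v) (htan : ∀ p i, 1 ≤ ‖p i‖ → inner 𝕜 (p i) (v p i) = 0) :
    ∃ p, ∀ i, v p i = 0 := by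
  let K : Set (ℕ → EuclideanSpace 𝕜 (Fin 2)) := Set.pi univ fun _ => closedBall 0 1
  have hK : IsCompact K := isCompact_univ_pi fun _ => isCompact_closedBall _ _
  let r : EuclideanSpace 𝕜 (Fin 2) → EuclideanSpace 𝕜 (Fin 2) :=
    fun q => (((max 1 ‖q‖)⁻¹ : ℝ) : 𝕜) • q
  have hr : Continuous r := by
    have h : Continuous fun q : EuclideanSpace 𝕜 (Fin 2) => (max 1 ‖q‖)⁻¹ :=
      (continuous_const.max continuous_norm).inv₀ fun q =>
        (lt_of_lt_of_le one_pos (le_max_left _ _)).ne'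
    have h' : Continuous fun q : EuclideanSpace 𝕜 (Fin 2) => (((max 1 ‖q‖)⁻¹ : ℝ) : 𝕜) :=
      RCLike.continuous_ofReal.comp h
    exact h'.fun_smul continuous_id'
  have hrn : ∀ q, ‖r q‖ = ‖q‖ / max 1 ‖q‖ := fun q => by
    simp only [r, norm_smul, RCLike.norm_ofReal]
    rw [abs_of_nonneg (by positivity), inv_mul_eq_div]
  have hr1 : ∀ q, ‖r q‖ ≤ 1 := fun q => by
    rw [hrn, div_le_one (lt_of_lt_of_le one_pos (le_max_left _ _))]
    exact le_max_right _ _
  have hfin : ∀ N : ℕ, ∃ p ∈ K, ∀ i < N, v p i = 0 := by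
    intro N
    let ext : (Fin N → EuclideanSpace 𝕜 (Fin 2)) → ℕ → EuclideanSpace 𝕜 (Fin 2) :=
      fun q i => if h : i < N then r (q ⟨i, h⟩) else 0
    have hext : Continuous ext := by
      refine continuous_pi fun i => ?_
      by_cases h : i < N
      · simp only [ext, h, dif_pos]
        exact hr.comp (continuous_apply _)
      · simp only [ext, h, dif_neg, not_false_eq_true]
        exact continuous_const
    have hextK : ∀ q, ext q ∈ K := by
      intro q i _
      by_cases h : i < N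
      · simp only [ext, h, dif_pos, mem_closedBall, dist_zero_right]
        exact hr1 _
      · simp [ext, h]
    let V : (ℕ → EuclideanSpace 𝕜 (Fin 2)) → Fin N → EuclideanSpace 𝕜 (Fin 2) :=
      fun p i => v p i
    have hV : Continuous V := continuous_pi fun i => (continuous_apply (i : ℕ)).comp hv
    obtain ⟨C, hC⟩ := hK.exists_bound_of_continuousOn hV.continuousOn
    obtain ⟨q, hq⟩ := fixed_normed (fun q : Fin N → EuclideanSpace 𝕜 (Fin 2) =>
      (fun i => r (q i)) + V (ext q))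
      ((continuous_pi fun i => hr.comp (continuous_apply i)).add (hV.comp hext)) (M := 1 + C)
      (fun q => (norm_add_le _ _).trans (add_le_add
        ((pi_norm_le_iff_of_nonneg zero_le_one).2 fun i => hr1 _) (hC _ (hextK q))))
    refine ⟨ext q, hextK q, fun i hi => ?_⟩
    have e1 : r (q ⟨i, hi⟩) + v (ext q) i = q ⟨i, hi⟩ := congrFun hq ⟨i, hi⟩
    have e2 : ext q i = r (q ⟨i, hi⟩) := by simp [ext, hi]
    set x := q ⟨i, hi⟩ with hx
    rcases le_or_gt ‖x‖ 1 with h | h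
    · have : r x = x := by simp [r, max_eq_left h]
      rw [this] at e1
      simpa using e1
    · exfalso
      have hx0 : 0 < ‖x‖ := by linarith
      have e3 : ‖r x‖ = 1 := by rw [hrn, max_eq_right h.le, div_self hx0.ne']
      have e4 := htan (ext q) i (by rw [e2, e3])
      have e5 : v (ext q) i = ((‖x‖ - 1 : ℝ) : 𝕜) • r x := by
        rw [eq_sub_of_add_eq' e1]
        have hx0' : (‖x‖ : 𝕜) ≠ 0 := by rw [RCLike.ofReal_ne_zero]; exact hx0.ne'
        simp only [r, max_eq_right h.le, smul_smul]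
        push_cast
        rw [sub_mul, mul_inv_cancel₀ hx0', one_mul, sub_smul, one_smul]
      rw [e2, e5, inner_smul_right, inner_self_eq_norm_sq_to_K, e3] at e4
      simp only [RCLike.ofReal_one, one_pow, mul_one, RCLike.ofReal_eq_zero] at e4
      linarith
  let Z : ℕ → Set (ℕ → EuclideanSpace 𝕜 (Fin 2)) := fun N => K ∩ {p | ∀ i < N, v p i = 0}
  have hZc : ∀ N, IsClosed (Z N) := by
    intro N
    refine hK.isClosed.inter ?_
    rw [ofPred_forall]; refine isClosed_iInter fun i => ?_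
    rw [ofPred_forall]; refine isClosed_iInter fun _ => ?_
    exact isClosed_eq ((continuous_apply i).comp hv) continuous_const
  obtain ⟨p, hp⟩ := IsCompact.nonempty_iInter_of_sequence_nonempty_isCompact_isClosed Z
    (fun N p hp => ⟨hp.1, fun i hi => hp.2 i (by omega)⟩)
    (fun N => let ⟨p, h1, h2⟩ := hfin N; ⟨p, h1, h2⟩)
    (hK.of_isClosed_subset (hZc 0) inter_subset_left) hZc
  exact ⟨p, fun i => (mem_iInter.1 hp (i + 1)).2 i (by omega)⟩

end Pool.Agent.MP_89350a_an
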