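import Mathlib

namespace Pool.Agent.MP_89350a_an

/-- The Wijsman topology on the closed linear subspaces of `E`: the coarsest topology making
`X ↦ d(x, X)` continuous for every `x ∈ E`. -/
@[reducible] noncomputable def wijsman (𝕜 E : Type*) [NontriviallyNormedField 𝕜]
    [NormedAddCommGroup E] [NormedSpace 𝕜 E] : TopologicalSpace (ClosedSubmodule 𝕜 E) :=
  TopologicalSpace.induced
    (fun (X : ClosedSubmodule 𝕜 E) (x : E) => Metric.infDist x (X : Set E)) Pi.topologicalSpace

end Pool.Agent.MP_89350a_an
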