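import Mathlib
import Pool.Agent.MP_89350a_an.Polish
import Pool.Agent.MP_89350a_an.WDefs

open TopologicalSpace Topology Filter Set Metric

namespace Pool.Agent.MP_89350a_an

variable {𝕜 E : Type*} [NontriviallyNormedField 𝕜] [NormedAddCommGroup E] [NormedSpace 𝕜 E]

lemma ne_cs (X : ClosedSubmodule 𝕜 E) : (X : Set E).Nonempty := ⟨0, X.toSubmodule.zero_mem⟩

/-- distance code along a sequence -/
noncomputable def dcode (𝕜 : Type*) [NontriviallyNormedField 𝕜] [NormedSpace 𝕜 E]
    (d : ℕ → E) (X : ClosedSubmodule 𝕜 E) : ℕ → ℝ := fun n => infDist (d n) (X : Set E)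

structure IsDCode (𝕜 : Type*) [NontriviallyNormedField 𝕜] [NormedSpace 𝕜 E]
    (d : ℕ → E) (φ : ℕ → ℝ) : Prop where
  nonneg : ∀ n, 0 ≤ φ n
  add : ∀ a b c, φ c ≤ φ a + φ b + ‖d c - (d a + d b)‖
  smul : ∀ (t : 𝕜) a c, φ c ≤ ‖t‖ * φ a + ‖d c - t • d a‖
  near : ∀ n k : ℕ, ∃ m, φ m < 1 / ((k : ℝ) + 1) ∧ ‖d n - d m‖ < φ n + 1 / ((k : ℝ) + 1)

lemma infDist_le_norm_sub (X : ClosedSubmodule 𝕜 E) (x : E) {y : E} (hy : y ∈ (X : Set E)) :
    infDist x (X : Set E) ≤ ‖x - y‖ := by
  rw [← dist_eq_norm]; exact infDist_le_dist_of_mem hy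

lemma exists_near (X : ClosedSubmodule 𝕜 E) (x : E) {ε : ℝ} (hε : 0 < ε) :
    ∃ y ∈ (X : Set E), ‖x - y‖ < infDist x (X : Set E) + ε := by
  obtain ⟨y, hy, h⟩ := (infDist_lt_iff (ne_cs X)).1 (lt_add_of_pos_right (infDist x (X : Set E)) hε)
  exact ⟨y, hy, by rwa [← dist_eq_norm]⟩

lemma isDCode_dcode {d : ℕ → E} (hd : DenseRange d) (X : ClosedSubmodule 𝕜 E) :
    IsDCode 𝕜 d (dcode 𝕜 d X) where
  nonneg _ := infDist_nonneg
  add a b c := by
    refine le_of_forall_pos_le_add fun ε hε => ?_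
    obtain ⟨y, hy, h1⟩ := exists_near X (d a) (half_pos hε)
    obtain ⟨z, hz, h2⟩ := exists_near X (d b) (half_pos hε)
    have h3 := infDist_le_norm_sub X (d c) (X.toSubmodule.add_mem hy hz)
    have h4 : d c - (y + z) = (d c - (d a + d b)) + (d a - y) + (d b - z) := by abel
    have h5 := norm_add₃_le (a := d c - (d a + d b)) (b := d a - y) (c := d b - z)
    rw [← h4] at h5
    simp only [dcode]
    linarith
  smul t a c := by
    refine le_of_forall_pos_le_add fun ε hε => ?_
    have hε' : 0 < ε / (‖t‖ + 1) := by positivity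
    obtain ⟨y, hy, h1⟩ := exists_near X (d a) hε'
    have h3 := infDist_le_norm_sub X (d c) (X.toSubmodule.smul_mem t hy)
    have h4 : d c - t • y = (d c - t • d a) + t • (d a - y) := by rw [smul_sub]; abel
    have h5 := norm_add_le (d c - t • d a) (t • (d a - y))
    rw [← h4, norm_smul] at h5
    have h6 : ‖t‖ * ‖d a - y‖ ≤ ‖t‖ * (infDist (d a) (X : Set E) + ε / (‖t‖ + 1)) :=
      mul_le_mul_of_nonneg_left h1.le (norm_nonneg _)
    have h7 : ‖t‖ * (ε / (‖t‖ + 1)) ≤ ε := by
      rw [← mul_div_assoc, div_le_iff₀ (by positivity)]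
      nlinarith [norm_nonneg t]
    simp only [dcode]
    nlinarith
  near n k := by
    have hk : (0 : ℝ) < 1 / ((k : ℝ) + 1) / 2 := by positivity
    obtain ⟨y, hy, h1⟩ := exists_near X (d n) hk
    obtain ⟨m, hm⟩ := hd.exists_dist_lt y hk
    rw [dist_eq_norm] at hm
    refine ⟨m, ?_, ?_⟩
    · have := infDist_le_norm_sub X (d m) hy
      rw [norm_sub_rev] at this
      simp only [dcode]
      linarith
    · have h4 : d n - d m = (d n - y) + (y - d m) := by abel
      have h5 := norm_add_le (d n - y) (y - d m)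
      rw [← h4] at h5
      simp only [dcode]
      linarith

lemma exists_dcode_eq [CompleteSpace E] {d : ℕ → E} (hd : DenseRange d) {φ : ℕ → ℝ}
    (hφ : IsDCode 𝕜 d φ) : ∃ X : ClosedSubmodule 𝕜 E, dcode 𝕜 d X = φ := by
  have hlip : ∀ a c, φ c ≤ φ a + ‖d c - d a‖ := fun a c => by
    simpa using hφ.smul 1 a c
  let S : Submodule 𝕜 E :=
    { carrier := {x | ∀ n, φ n ≤ ‖d n - x‖}
      zero_mem' := fun n => by simpa using hφ.smul 0 0 n
      add_mem' := by
        intro x y hx hy c
        refine le_of_forall_pos_le_add fun ε hε => ?_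
        have hε' : 0 < ε / 4 := by positivity
        obtain ⟨a, ha⟩ := hd.exists_dist_lt x hε'
        obtain ⟨b, hb⟩ := hd.exists_dist_lt y hε'
        rw [dist_eq_norm] at ha hb
        have h1 := hx a
        have h2 := hy b
        rw [norm_sub_rev] at h1 h2
        have h3 := hφ.add a b c
        have h4 : d c - (d a + d b) = (d c - (x + y)) + (x - d a) + (y - d b) := by abel
        have h5 := norm_add₃_le (a := d c - (x + y)) (b := x - d a) (c := y - d b)
        rw [← h4] at h5
        linarith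
      smul_mem' := by
        intro t x hx c
        refine le_of_forall_pos_le_add fun ε hε => ?_
        have hε' : 0 < ε / 2 / (‖t‖ + 1) := by positivity
        obtain ⟨a, ha⟩ := hd.exists_dist_lt x hε'
        rw [dist_eq_norm] at ha
        have h1 := hx a
        rw [norm_sub_rev] at h1
        have h3 := hφ.smul t a c
        have h4 : d c - t • d a = (d c - t • x) + t • (x - d a) := by rw [smul_sub]; abel
        have h5 := norm_add_le (d c - t • x) (t • (x - d a))
        rw [← h4, norm_smul] at h5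
        have h7 : ‖t‖ * (ε / 2 / (‖t‖ + 1)) ≤ ε / 2 := by
          rw [← mul_div_assoc, div_le_iff₀ (by positivity)]
          nlinarith [norm_nonneg t]
        have h8 : ‖t‖ * ‖x - d a‖ ≤ ‖t‖ * (ε / 2 / (‖t‖ + 1)) :=
          mul_le_mul_of_nonneg_left ha.le (norm_nonneg _)
        have h9 : ‖t‖ * φ a ≤ ‖t‖ * ‖x - d a‖ := mul_le_mul_of_nonneg_left h1 (norm_nonneg _)
        linarith }
  have hS : IsClosed (S : Set E) := by
    have : (S : Set E) = ⋂ n, {x | φ n ≤ ‖d n - x‖} := by
      ext x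
      simp only [mem_iInter]
      rfl
    rw [this]
    exact isClosed_iInter fun n => isClosed_le continuous_const (by fun_prop)
  refine ⟨⟨S, hS⟩, ?_⟩
  funext n
  apply le_antisymm
  · refine le_of_forall_pos_le_add fun ε hε => ?_
    have hstep : ∀ (m k : ℕ), ∃ m', φ m' < ε / 4 / 2 ^ (k + 1) ∧
        ‖d m - d m'‖ < φ m + ε / 4 / 2 ^ (k + 1) := by
      intro m k
      obtain ⟨j, hj⟩ := exists_nat_one_div_lt (show (0 : ℝ) < ε / 4 / 2 ^ (k + 1) by positivity)
      obtain ⟨m', h1, h2⟩ := hφ.near m j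
      exact ⟨m', h1.trans hj, by linarith⟩
    choose nxt hn1 hn2 using hstep
    let u : ℕ → ℕ := fun k => Nat.rec (nxt n 0) (fun k m => nxt m (k + 1)) k
    have hu0 : u 0 = nxt n 0 := rfl
    have hus : ∀ k, u (k + 1) = nxt (u k) (k + 1) := fun k => rfl
    have hφu : ∀ k, φ (u k) < ε / 4 / 2 ^ (k + 1) := by
      intro k
      cases k with
      | zero => exact hn1 n 0
      | succ k => rw [hus]; exact hn1 _ _
    have hdist : ∀ k, dist (d (u k)) (d (u (k + 1))) ≤ ε / 2 / 2 / 2 ^ k := by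
      intro k
      rw [dist_eq_norm, hus]
      have h1 := hn2 (u k) (k + 1)
      have h2 := hφu k
      have h3 : ε / 4 / 2 ^ (k + 1 + 1) ≤ ε / 4 / 2 ^ (k + 1) := by
        apply div_le_div_of_nonneg_left (by positivity) (by positivity)
        exact pow_le_pow_right₀ (by norm_num) (by omega)
      have h4 : ε / 2 / 2 / 2 ^ k = ε / 4 / 2 ^ (k + 1) + ε / 4 / 2 ^ (k + 1) := by
        rw [pow_succ]; field_simp; ring
      linarith
    have hcau : CauchySeq fun k => d (u k) := cauchySeq_of_le_geometric_two hdist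
    obtain ⟨z, hz⟩ := cauchySeq_tendsto_of_complete hcau
    have hz0 : dist (d (u 0)) z ≤ ε / 2 := dist_le_of_le_geometric_two_of_tendsto₀ hdist hz
    have hφ0 : Tendsto (fun k => φ (u k)) atTop (𝓝 0) := by
      have h1 : Tendsto (fun k : ℕ => ε / 4 / 2 ^ (k + 1)) atTop (𝓝 0) := by
        have := (tendsto_pow_atTop_atTop_of_one_lt (show (1 : ℝ) < 2 by norm_num)).comp
          (tendsto_add_atTop_nat 1)
        exact this.const_div_atTop _
      exact squeeze_zero (fun k => hφ.nonneg _) (fun k => (hφu k).le) h1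
    have hzS : z ∈ S := by
      intro c
      have h1 : Tendsto (fun k => φ (u k) + ‖d c - d (u k)‖) atTop (𝓝 (0 + ‖d c - z‖)) :=
        hφ0.add ((tendsto_const_nhds.sub hz).norm)
      rw [zero_add] at h1
      exact ge_of_tendsto' h1 fun k => hlip _ _
    have h1 : dcode 𝕜 d ⟨S, hS⟩ n ≤ ‖d n - z‖ := infDist_le_norm_sub ⟨S, hS⟩ _ hzS
    have h2 := hn2 n 0
    rw [← hu0] at h2
    rw [dist_eq_norm] at hz0
    have h4 : d n - z = (d n - d (u 0)) + (d (u 0) - z) := by abel
    have h5 := norm_add_le (d n - d (u 0)) (d (u 0) - z)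
    rw [← h4] at h5
    norm_num at h2
    linarith
  · refine (le_infDist (ne_cs (⟨S, hS⟩ : ClosedSubmodule 𝕜 E))).2 fun y hy => ?_
    rw [dist_eq_norm]
    exact hy n

lemma isGδ_isDCode (d : ℕ → E) : IsGδ {φ : ℕ → ℝ | IsDCode 𝕜 d φ} := by
  have h1 : IsClosed {φ : ℕ → ℝ | ∀ n, 0 ≤ φ n} := by
    rw [ofPred_forall]
    exact isClosed_iInter fun n => isClosed_le continuous_const (continuous_apply n)
  have h2 : IsClosed {φ : ℕ → ℝ | ∀ a b c, φ c ≤ φ a + φ b + ‖d c - (d a + d b)‖} := by
    rw [ofPred_forall]; refine isClosed_iInter fun a => ?_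
    rw [ofPred_forall]; refine isClosed_iInter fun b => ?_
    rw [ofPred_forall]; refine isClosed_iInter fun c => ?_
    exact isClosed_le (by fun_prop) (by fun_prop)
  have h3 : IsClosed {φ : ℕ → ℝ | ∀ (t : 𝕜) a c, φ c ≤ ‖t‖ * φ a + ‖d c - t • d a‖} := by
    rw [ofPred_forall]; refine isClosed_iInter fun a => ?_
    rw [ofPred_forall]; refine isClosed_iInter fun b => ?_
    rw [ofPred_forall]; refine isClosed_iInter fun c => ?_
    exact isClosed_le (by fun_prop) (by fun_prop)
  have h4 : IsGδ {φ : ℕ → ℝ | ∀ n k : ℕ, ∃ m, φ m < 1 / ((k : ℝ) + 1) ∧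
      ‖d n - d m‖ < φ n + 1 / ((k : ℝ) + 1)} := by
    rw [ofPred_forall]; refine IsGδ.iInter fun n => ?_
    rw [ofPred_forall]; refine IsGδ.iInter fun k => ?_
    refine IsOpen.isGδ ?_
    rw [ofPred_exists]
    refine isOpen_iUnion fun m => ?_
    have a1 : IsOpen {φ : ℕ → ℝ | φ m < 1 / ((k : ℝ) + 1)} := isOpen_lt (by fun_prop) (by fun_prop)
    have a2 : IsOpen {φ : ℕ → ℝ | ‖d n - d m‖ < φ n + 1 / ((k : ℝ) + 1)} :=
      isOpen_lt (by fun_prop) (by fun_prop)
    exact a1.inter a2
  convert ((h1.isGδ.inter h2.isGδ).inter h3.isGδ).inter h4 using 1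
  ext φ
  exact ⟨fun h => ⟨⟨⟨h.nonneg, h.add⟩, h.smul⟩, h.near⟩, fun h => ⟨h.1.1.1, h.1.1.2, h.1.2, h.2⟩⟩

lemma continuous_wijsman (x : E) :
    Continuous[wijsman 𝕜 E, inferInstance]
      fun X : ClosedSubmodule 𝕜 E => infDist x (X : Set E) := by
  let _ := wijsman 𝕜 E
  have h : Continuous fun (X : ClosedSubmodule 𝕜 E) (x : E) => Metric.infDist x (X : Set E) :=
    continuous_induced_dom
  exact (continuous_apply x).comp h

lemma continuous_wijsman_rng {P : Type*} [TopologicalSpace P] {X : P → ClosedSubmodule 𝕜 E}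
    (h : ∀ x : E, Continuous fun p => infDist x (X p : Set E)) :
    Continuous[inferInstance, wijsman 𝕜 E] X :=
  continuous_induced_rng.2 (continuous_pi h)

lemma wijsman_eq_induced {d : ℕ → E} (hd : DenseRange d) :
    wijsman 𝕜 E = induced (dcode 𝕜 d) inferInstance := by
  apply le_antisymm
  · refine continuous_iff_le_induced.1 ?_
    let _ := wijsman 𝕜 E
    exact continuous_pi fun n => continuous_wijsman (d n)
  · let _ : TopologicalSpace (ClosedSubmodule 𝕜 E) := induced (dcode 𝕜 d) inferInstance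
    refine continuous_iff_le_induced.1 (continuous_pi fun x => ?_)
    have hc : ∀ n, Continuous fun X : ClosedSubmodule 𝕜 E => infDist (d n) (X : Set E) :=
      fun n => (continuous_apply n).comp
        (show Continuous (dcode 𝕜 d) from continuous_induced_dom)
    refine continuous_of_uniform_approx_of_continuous fun u hu => ?_
    obtain ⟨ε, hε, hεu⟩ := mem_uniformity_dist.1 hu
    obtain ⟨n, hn⟩ := hd.exists_dist_lt x hε
    refine ⟨_, hc n, fun X => hεu ?_⟩
    exact ((lipschitz_infDist_pt (X : Set E)).dist_le_mul x (d n)).trans_lt (by simpa using hn)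

theorem isAdmissible_wijsman [CompleteSpace E] [SeparableSpace E] :
    IsAdmissible (wijsman 𝕜 E) := by
  let _ := wijsman 𝕜 E
  have hopen : ∀ U : Set E, IsOpen U → IsOpen (hits 𝕜 U) := by
    intro U hU
    rw [isOpen_iff_mem_nhds]
    rintro X ⟨x, hx, hxU⟩
    obtain ⟨ε, hε, hb⟩ := Metric.isOpen_iff.1 hU x hxU
    have h1 : {Y : ClosedSubmodule 𝕜 E | infDist x (Y : Set E) < ε} ∈ 𝓝 X := by
      refine (isOpen_lt (continuous_wijsman x) continuous_const).mem_nhds ?_
      simp only [mem_ofPred_eq, infDist_zero_of_mem hx, hε]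
    filter_upwards [h1] with Y hY
    obtain ⟨y, hy, h⟩ := (infDist_lt_iff (ne_cs Y)).1 hY
    exact ⟨y, hy, hb (by rwa [mem_ball, dist_comm])⟩
  refine ⟨?_, hopen, ?_⟩
  · obtain ⟨d, hd⟩ := exists_dense_seq E
    have hemb : IsEmbedding (dcode 𝕜 d) := by
      refine ⟨⟨wijsman_eq_induced hd⟩, fun X Y h => ?_⟩
      have key : ∀ X Y : ClosedSubmodule 𝕜 E, dcode 𝕜 d X = dcode 𝕜 d Y → (X : Set E) ⊆ Y := by
        intro X Y h x hx
        rw [← Y.isClosed.closure_eq, mem_closure_iff_infDist_zero (ne_cs Y)]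
        have : (fun x => infDist x (X : Set E)) = fun x => infDist x (Y : Set E) :=
          hd.equalizer (continuous_infDist_pt _) (continuous_infDist_pt _) h
        rw [← congrFun this x]
        exact infDist_zero_of_mem hx
      exact SetLike.coe_injective (Subset.antisymm (key X Y h) (key Y X h.symm))
    have hrange : range (dcode 𝕜 d) = {φ : ℕ → ℝ | IsDCode 𝕜 d φ} := by
      ext φ
      exact ⟨by rintro ⟨X, rfl⟩; exact isDCode_dcode hd X, fun h => exists_dcode_eq hd h⟩
    have hP : PolishSpace (range (dcode 𝕜 d)) := polishSpace_of_isGδ (hrange ▸ isGδ_isDCode d)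
    exact hemb.toHomeomorph.isClosedEmbedding.polishSpace
  · let S : Set (Set (ClosedSubmodule 𝕜 E)) :=
      {s | ∃ (x : E) (r : ℝ), s = {X : ClosedSubmodule 𝕜 E | infDist x (X : Set E) < r} ∨
        s = {X : ClosedSubmodule 𝕜 E | r < infDist x (X : Set E)}}
    refine ⟨S, ?_, ?_⟩
    · apply le_antisymm
      · refine le_generateFrom ?_
        rintro s ⟨x, r, rfl | rfl⟩
        · exact isOpen_lt (continuous_wijsman x) continuous_const
        · exact isOpen_lt continuous_const (continuous_wijsman x)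
      · refine continuous_iff_le_induced.1 ?_
        let σ : TopologicalSpace (ClosedSubmodule 𝕜 E) := generateFrom S
        refine @continuous_pi _ _ _ σ _ _ fun x => ?_
        refine (@OrderTopology.continuous_iff _ _ _ _ _ σ _).2 fun r => ⟨?_, ?_⟩
        · exact isOpen_generateFrom_of_mem ⟨x, r, Or.inr rfl⟩
        · exact isOpen_generateFrom_of_mem ⟨x, r, Or.inl rfl⟩
    · rintro s ⟨x, r, rfl | rfl⟩
      · refine ⟨fun _ => ball x r, fun _ => ∅, fun _ => isOpen_ball, fun _ => isOpen_empty, ?_⟩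
        ext X
        simp only [hits, mem_ofPred_eq, mem_iUnion, Set.mem_sdiff, inter_empty,
          Set.not_nonempty_empty, not_false_eq_true, and_true, exists_const,
          infDist_lt_iff (ne_cs X)]
        constructor
        · rintro ⟨y, hy, h⟩
          exact ⟨y, hy, by rwa [mem_ball, dist_comm]⟩
        · rintro ⟨y, hy, h⟩
          exact ⟨y, hy, by rwa [mem_ball, dist_comm] at h⟩
      · refine ⟨fun _ => univ, fun n => ball x (r + 1 / ((n : ℝ) + 1)), fun _ => isOpen_univ,
          fun _ => isOpen_ball, ?_⟩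
        ext X
        simp only [hits, mem_ofPred_eq, mem_iUnion, Set.mem_sdiff, inter_univ]
        constructor
        · intro h
          obtain ⟨n, hn⟩ := exists_nat_one_div_lt (sub_pos.2 h)
          refine ⟨n, ne_cs X, ?_⟩
          rintro ⟨y, hy, hb⟩
          have := infDist_le_dist_of_mem (x := x) hy
          rw [mem_ball, dist_comm] at hb
          linarith
        · rintro ⟨n, -, hn⟩
          by_contra hc
          have h1 : infDist x (X : Set E) < r + 1 / ((n : ℝ) + 1) :=
            (not_lt.1 hc).trans_lt (lt_add_of_pos_right _ (by positivity))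
          obtain ⟨y, hy, h⟩ := (infDist_lt_iff (ne_cs X)).1 h1
          exact hn ⟨y, hy, by rwa [mem_ball, dist_comm]⟩

end Pool.Agent.MP_89350a_an
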