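import Mathlib
import Pool.Agent.MP_89350a_an.WPolish
import Pool.Agent.MP_89350a_an.WBlock

open Topology Filter Set Metric

namespace Pool.Agent.MP_89350a_an

/-- disjoint clopen cells converging to a point -/
structure Cells (Δ ι : Type) [TopologicalSpace Δ] where
  U : ι → Set Δ
  t : ι → Δ
  ω : Δ
  clopen : ∀ n, IsClopen (U n)
  mem : ∀ n, t n ∈ U n
  disj : ∀ n m s, s ∈ U n → s ∈ U m → n = m
  not_mem : ∀ n, ω ∉ U n
  lim : ∀ N ∈ 𝓝 ω, ∀ᶠ n in cofinite, U n ⊆ N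

variable {𝕜 : Type} [RCLike 𝕜] {Δ ι : Type} [TopologicalSpace Δ]

noncomputable def Cells.ind (C : Cells Δ ι) (n : ι) : C(Δ, 𝕜) :=
  ⟨(C.U n).indicator fun _ => 1, (C.clopen n).continuous_indicator continuous_const⟩

noncomputable def Cells.build (C : Cells Δ ι) (F : Finset ι) (c : ι → 𝕜) : C(Δ, 𝕜) :=
  ∑ n ∈ F, c n • C.ind n

open Classical in
lemma Cells.build_mem (C : Cells Δ ι) (F : Finset ι) (c : ι → 𝕜) {n : ι} {s : Δ}
    (hs : s ∈ C.U n) : C.build F c s = if n ∈ F then c n else 0 := by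
  have h : ∀ m, (c m • C.ind m : C(Δ, 𝕜)) s = if n = m then c m else 0 := by
    intro m
    by_cases hm : n = m
    · subst hm
      simp [Cells.ind, hs]
    · have : s ∉ C.U m := fun h => hm (C.disj _ _ _ hs h)
      simp [Cells.ind, this, hm]
  rw [Cells.build, ContinuousMap.coe_sum, Finset.sum_apply]
  simp only [h]
  rw [Finset.sum_ite_eq]

lemma Cells.build_not_mem (C : Cells Δ ι) (F : Finset ι) (c : ι → 𝕜) {s : Δ}
    (hs : ∀ n, s ∉ C.U n) : C.build F c s = 0 := by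
  rw [Cells.build, ContinuousMap.coe_sum, Finset.sum_apply]
  exact Finset.sum_eq_zero fun m _ => by simp [Cells.ind, hs m]

/-- step functions on the cells -/
def Cells.Step (C : Cells Δ ι) (y : C(Δ, 𝕜)) : Prop :=
  (∀ n, ∀ s ∈ C.U n, y s = y (C.t n)) ∧ ∀ s, (∀ n, s ∉ C.U n) → y s = 0

lemma Cells.step_build (C : Cells Δ ι) (F : Finset ι) (c : ι → 𝕜) : C.Step (C.build F c) :=
  ⟨fun n _ hs => by rw [C.build_mem F c hs, C.build_mem F c (C.mem n)],
    fun _ hs => C.build_not_mem F c hs⟩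

variable [CompactSpace Δ]

lemma Cells.compare (C : Cells Δ ι) (y : C(Δ, 𝕜)) {ε : ℝ} (hε : 0 < ε) :
    ∃ F0 : Finset ι, ∀ F, F0 ⊆ F → ∀ x : C(Δ, 𝕜), C.Step x → ∀ c : ι → 𝕜,
      (∀ n ∈ F, ‖c n - x (C.t n)‖ ≤ ε) → ‖y - C.build F c‖ ≤ ‖y - x‖ + ε := by
  have h1 : {s | ‖y s - y C.ω‖ < ε} ∈ 𝓝 C.ω :=
    (isOpen_lt (by fun_prop) continuous_const).mem_nhds (by simpa using hε)
  have h2 := C.lim _ h1
  rw [Filter.eventually_cofinite] at h2
  refine ⟨h2.toFinset, fun F hF x hx c hc => ?_⟩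
  refine (ContinuousMap.norm_le _ (by positivity)).2 fun s => ?_
  have hb : ∀ s, ‖y s - x s‖ ≤ ‖y - x‖ := fun s => (y - x).norm_coe_le_norm s
  rw [ContinuousMap.sub_apply]
  by_cases hs : ∃ n, s ∈ C.U n
  · obtain ⟨n, hn⟩ := hs
    rw [C.build_mem F c hn]
    split_ifs with h
    · have e : y s - c n = (y s - x s) - (c n - x (C.t n)) := by rw [hx.1 n s hn]; ring
      rw [e]
      exact (norm_sub_le _ _).trans (add_le_add (hb s) (hc n h))
    · have h3 : C.U n ⊆ {s | ‖y s - y C.ω‖ < ε} := by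
        by_contra hcon
        exact h (hF (h2.mem_toFinset.2 hcon))
      have h4 : ‖y s - y C.ω‖ < ε := h3 hn
      have h5 := hb C.ω
      rw [hx.2 _ C.not_mem] at h5
      have e : y s - 0 = (y C.ω - 0) + (y s - y C.ω) := by ring
      rw [e]
      exact (norm_add_le _ _).trans (add_le_add h5 h4.le)
  · push Not at hs
    rw [C.build_not_mem F c hs, ← hx.2 s hs]
    linarith [hb s]

/-- the vector read off block `i` -/
noncomputable def wv (C : Cells Δ (ℕ × (Fin 2 ⊕ ℕ))) (y : C(Δ, 𝕜)) (i : ℕ) :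
    EuclideanSpace 𝕜 (Fin 2) := WithLp.toLp 2 fun j => y (C.t (i, Sum.inl j))

omit [CompactSpace Δ] in
lemma continuous_wv (C : Cells Δ (ℕ × (Fin 2 ⊕ ℕ))) (i : ℕ) :
    Continuous fun y : C(Δ, 𝕜) => wv C y i := by
  unfold wv; fun_prop

lemma norm_wv_le (C : Cells Δ (ℕ × (Fin 2 ⊕ ℕ))) (y : C(Δ, 𝕜)) (i : ℕ) :
    ‖wv C y i‖ ≤ 2 * ‖y‖ := by
  rw [EuclideanSpace.norm_eq, Fin.sum_univ_two]
  have h0 : ‖wv C y i 0‖ ≤ ‖y‖ := y.norm_coe_le_norm _
  have h1 : ‖wv C y i 1‖ ≤ ‖y‖ := y.norm_coe_le_norm _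
  rw [Real.sqrt_le_left (by positivity)]
  nlinarith [norm_nonneg (wv C y i 0), norm_nonneg (wv C y i 1), norm_nonneg y]

/-- the family of subspaces -/
noncomputable def fam (C : Cells Δ (ℕ × (Fin 2 ⊕ ℕ))) (p : ℕ → EuclideanSpace 𝕜 (Fin 2)) :
    ClosedSubmodule 𝕜 C(Δ, 𝕜) where
  carrier := {y | C.Step y ∧ ∀ i, Cond (p i) (wv C y i) fun k => y (C.t (i, Sum.inr k))}
  zero_mem' := ⟨⟨fun _ _ _ => rfl, fun _ _ => rfl⟩, fun i => by
    have : wv C (0 : C(Δ, 𝕜)) i = 0 := rfl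
    exact ⟨fun k => by simp [this], fun _ => by simp [this]⟩⟩
  add_mem' := by
    rintro x y ⟨hx, hx'⟩ ⟨hy, hy'⟩
    refine ⟨⟨fun n s hs => by simp [hx.1 n s hs, hy.1 n s hs],
      fun s hs => by simp [hx.2 s hs, hy.2 s hs]⟩, fun i => ?_⟩
    have : wv C (x + y) i = wv C x i + wv C y i := rfl
    refine ⟨fun k => ?_, fun h => ?_⟩
    · have h1 := (hx' i).esc k
      have h2 := (hy' i).esc k
      simp only [this, inner_add_right, ContinuousMap.add_apply] at h1 h2 ⊢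
      rw [h1, h2]; ring
    · rw [this, inner_add_right, (hx' i).tan h, (hy' i).tan h, add_zero]
  smul_mem' := by
    rintro a x ⟨hx, hx'⟩
    refine ⟨⟨fun n s hs => by simp [hx.1 n s hs], fun s hs => by simp [hx.2 s hs]⟩, fun i => ?_⟩
    have : wv C (a • x) i = a • wv C x i := rfl
    refine ⟨fun k => ?_, fun h => ?_⟩
    · have h1 := (hx' i).esc k
      simp only [this, inner_smul_right, ContinuousMap.smul_apply, smul_eq_mul] at h1 ⊢
      rw [h1]; ring
    · rw [this, inner_smul_right, (hx' i).tan h, mul_zero]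
  isClosed' := by
    have e : {y : C(Δ, 𝕜) | C.Step y ∧
        ∀ i, Cond (p i) (wv C y i) fun k => y (C.t (i, Sum.inr k))} =
        ((⋂ n, ⋂ s ∈ C.U n, {y : C(Δ, 𝕜) | y s = y (C.t n)}) ∩
          ⋂ s, ⋂ (_ : ∀ n, s ∉ C.U n), {y : C(Δ, 𝕜) | y s = 0}) ∩
        ⋂ i, ((⋂ k, {y : C(Δ, 𝕜) | y (C.t (i, Sum.inr k)) =
            inner 𝕜 (p i) (wv C y i) * (bump k (1 - ‖p i‖) : 𝕜)}) ∩
          ⋂ (_ : 1 ≤ ‖p i‖), {y : C(Δ, 𝕜) | inner 𝕜 (p i) (wv C y i) = 0}) := by
      ext y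
      simp only [Cells.Step, mem_ofPred_eq, mem_inter_iff, mem_iInter]
      exact and_congr Iff.rfl (forall_congr' fun i => ⟨fun h => ⟨h.1, h.2⟩, fun h => ⟨h.1, h.2⟩⟩)
    have hw := continuous_wv (𝕜 := 𝕜) C
    change IsClosed {y : C(Δ, 𝕜) | C.Step y ∧
        ∀ i, Cond (p i) (wv C y i) fun k => y (C.t (i, Sum.inr k))}
    rw [e]
    refine IsClosed.inter (IsClosed.inter ?_ ?_) (isClosed_iInter fun i => IsClosed.inter ?_ ?_)
    · exact isClosed_iInter fun n => isClosed_biInter fun s _ =>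
        isClosed_eq (by fun_prop) (by fun_prop)
    · exact isClosed_iInter fun s => isClosed_iInter fun _ =>
        isClosed_eq (by fun_prop) continuous_const
    · exact isClosed_iInter fun k => isClosed_eq (by fun_prop)
        ((continuous_const.inner (hw i)).mul continuous_const)
    · exact isClosed_iInter fun _ => isClosed_eq (continuous_const.inner (hw i)) continuous_const

lemma mem_fam {C : Cells Δ (ℕ × (Fin 2 ⊕ ℕ))} {p : ℕ → EuclideanSpace 𝕜 (Fin 2)} {y : C(Δ, 𝕜)} :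
    y ∈ (fam C p : Set C(Δ, 𝕜)) ↔
      C.Step y ∧ ∀ i, Cond (p i) (wv C y i) fun k => y (C.t (i, Sum.inr k)) := Iff.rfl

/-- coefficients from block data -/
def coef (w : ℕ → EuclideanSpace 𝕜 (Fin 2)) (f : ℕ → ℕ → 𝕜) : ℕ × (Fin 2 ⊕ ℕ) → 𝕜 :=
  fun n => Sum.elim (fun j => w n.1 j) (fun k => f n.1 k) n.2

lemma build_mem_fam (C : Cells Δ (ℕ × (Fin 2 ⊕ ℕ))) (p : ℕ → EuclideanSpace 𝕜 (Fin 2))
    (I : Finset ℕ) (M : ℕ) (w : ℕ → EuclideanSpace 𝕜 (Fin 2)) (f : ℕ → ℕ → 𝕜)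
    (h : ∀ i ∈ I, Cond (p i) (w i) (f i) ∧ ∀ k, M ≤ k → f i k = 0) :
    C.build (I ×ˢ (Finset.univ.disjSum (Finset.range M))) (coef w f) ∈
      (fam C p : Set C(Δ, 𝕜)) := by
  refine ⟨C.step_build _ _, fun i => ?_⟩
  by_cases hi : i ∈ I
  · have e1 : wv C (C.build (I ×ˢ (Finset.univ.disjSum (Finset.range M))) (coef w f)) i = w i := by
      ext j
      simp [wv, C.build_mem _ _ (C.mem _), hi, coef]
    have e2 : (fun k => C.build (I ×ˢ (Finset.univ.disjSum (Finset.range M))) (coef w f)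
        (C.t (i, Sum.inr k))) = f i := by
      funext k
      by_cases hk : k < M
      · simp [C.build_mem _ _ (C.mem _), hi, coef, hk]
      · simp [C.build_mem _ _ (C.mem _), hk, (h i hi).2 k (not_lt.1 hk)]
    rw [e1, e2]
    exact (h i hi).1
  · have e1 : wv C (C.build (I ×ˢ (Finset.univ.disjSum (Finset.range M))) (coef w f)) i = 0 := by
      ext j
      simp [wv, C.build_mem _ _ (C.mem _), hi]
    rw [e1]
    exact ⟨fun k => by simp [C.build_mem _ _ (C.mem _), hi], fun _ => by simp⟩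

lemma continuous_fam (C : Cells Δ (ℕ × (Fin 2 ⊕ ℕ))) (y : C(Δ, 𝕜)) :
    Continuous fun p : ℕ → EuclideanSpace 𝕜 (Fin 2) => infDist y (fam C p : Set C(Δ, 𝕜)) := by
  rw [continuous_iff_continuousAt]
  intro a
  rw [ContinuousAt, Metric.tendsto_nhds]
  intro ε3 hε3
  obtain ⟨ε, hε, rfl⟩ : ∃ ε, 0 < ε ∧ ε3 = 3 * ε := ⟨ε3 / 3, by positivity, by ring⟩
  obtain ⟨F0, hF0⟩ := C.compare y hε
  choose M0 hM0 using fun i => block (a i)
  obtain ⟨N, hN⟩ := (F0.image fun n => n.1 + Sum.elim (fun _ => 0) id n.2).finite_toSet.bddAbove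
  let M : ℕ := N + 1 + ∑ i ∈ Finset.range (N + 1), M0 i
  have hM : ∀ i ∈ Finset.range (N + 1), M0 i ≤ M := fun i hi =>
    (Finset.single_le_sum (f := M0) (fun _ _ => Nat.zero_le _) hi).trans (Nat.le_add_left _ _)
  have hsub : F0 ⊆ Finset.range (N + 1) ×ˢ (Finset.univ.disjSum (Finset.range M)) := by
    rintro ⟨i, u⟩ hn
    have := hN (Finset.mem_coe.2 (Finset.mem_image_of_mem _ hn))
    cases u with
    | inl j => simp at this ⊢; omega
    | inr k => simp at this ⊢; omega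
  have hR : 0 < 2 * (2 * ‖y‖ + ε) := by positivity
  have hQ : ∀ i, ∃ Q ∈ 𝓝 (a i), i ∈ Finset.range (N + 1) →
      ∀ b ∈ Q, ∀ b' ∈ Q, Appr M (2 * (2 * ‖y‖ + ε)) ε b b' := by
    intro i
    by_cases hi : i ∈ Finset.range (N + 1)
    · obtain ⟨Q, h1, h2⟩ := hM0 i M (hM i hi) _ ε hR hε
      exact ⟨Q, h1, fun _ => h2⟩
    · exact ⟨univ, univ_mem, fun h => (hi h).elim⟩
  choose Q hQ1 hQ2 using hQ
  have key : ∀ p p' : ℕ → EuclideanSpace 𝕜 (Fin 2),
      (∀ i ∈ Finset.range (N + 1), p i ∈ Q i) → (∀ i ∈ Finset.range (N + 1), p' i ∈ Q i) →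
      infDist y (fam C p' : Set C(Δ, 𝕜)) < infDist y (fam C p : Set C(Δ, 𝕜)) + 2 * ε := by
    intro p p' hp hp'
    obtain ⟨x, hx, hxd⟩ := exists_near (fam C p) y hε
    have h0 : infDist y (fam C p : Set C(Δ, 𝕜)) ≤ ‖y‖ := by
      simpa using infDist_le_norm_sub (fam C p) y (fam C p).toSubmodule.zero_mem
    have hxn : ‖x‖ ≤ 2 * ‖y‖ + ε := by
      have := norm_sub_norm_le x y
      rw [norm_sub_rev] at this
      linarith
    have hb : ∀ i, ∃ (w' : EuclideanSpace 𝕜 (Fin 2)) (f' : ℕ → 𝕜), i ∈ Finset.range (N + 1) →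
        Cond (p' i) w' f' ∧ ‖w' - wv C x i‖ ≤ ε ∧
        (∀ k < M, ‖f' k - x (C.t (i, Sum.inr k))‖ ≤ ε) ∧ ∀ k, M ≤ k → f' k = 0 := by
      intro i
      by_cases hi : i ∈ Finset.range (N + 1)
      · obtain ⟨w', f', h⟩ := hQ2 i hi _ (hp i hi) _ (hp' i hi) _ _ (hx.2 i)
          ((norm_wv_le C x i).trans (by linarith))
          (fun k => (x.norm_coe_le_norm _).trans (by linarith [norm_nonneg x]))
        exact ⟨w', f', fun _ => h⟩
      · exact ⟨0, 0, fun h => (hi h).elim⟩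
    choose w' f' hb using hb
    have hmem := build_mem_fam C p' (Finset.range (N + 1)) M w' f'
      fun i hi => ⟨(hb i hi).1, (hb i hi).2.2.2⟩
    have h1 := hF0 _ hsub x hx.1 (coef w' f') (by
      rintro ⟨i, u⟩ hn
      rw [Finset.mem_product] at hn
      cases u with
      | inl j =>
        exact (PiLp.norm_apply_le (w' i - wv C x i) j).trans (hb i hn.1).2.1
      | inr k =>
        exact (hb i hn.1).2.2.1 k (by simpa using hn.2))
    have h2 := infDist_le_norm_sub (fam C p') y hmem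
    linarith
  have ha : ∀ i ∈ Finset.range (N + 1), a i ∈ Q i := fun i _ => mem_of_mem_nhds (hQ1 i)
  have hev : ∀ᶠ p in 𝓝 a, ∀ i ∈ Finset.range (N + 1), p i ∈ Q i := by
    rw [Finset.eventually_all]
    exact fun i _ => (continuous_apply i).continuousAt.eventually (hQ1 i)
  filter_upwards [hev] with p hp
  have h1 := key p a hp ha
  have h2 := key a p ha hp
  rw [Real.dist_eq, abs_lt]
  constructor <;> linarith

lemma fam_infinite (C : Cells Δ (ℕ × (Fin 2 ⊕ ℕ))) (p : ℕ → EuclideanSpace 𝕜 (Fin 2)) :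
    ¬ FiniteDimensional 𝕜 (fam C p).toSubmodule := by
  intro hfin
  choose w hw0 hw using fun i => exists_orth (p i)
  have hmem : ∀ i, C.build ({i} ×ˢ (Finset.univ.disjSum (Finset.range 0))) (coef w fun _ _ => 0) ∈
      (fam C p : Set C(Δ, 𝕜)) := fun i =>
    build_mem_fam C p {i} 0 w _ fun j _ =>
      ⟨⟨fun k => by simp [hw j], fun _ => hw j⟩, fun _ _ => rfl⟩
  let e : ℕ → (fam C p).toSubmodule := fun i => ⟨_, hmem i⟩
  have hwv : ∀ i j, wv C (e i : C(Δ, 𝕜)) j = if j = i then w j else 0 := by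
    intro i j
    ext l
    by_cases h : j = i
    · simp [e, wv, C.build_mem _ _ (C.mem _), h, coef]
    · have h' : ¬ i = j := fun h' => h h'.symm
      simp [e, wv, C.build_mem _ _ (C.mem _), h, h']
  have hli : LinearIndependent 𝕜 e := by
    rw [linearIndependent_iff']
    intro s g hs i hi
    let L : (fam C p).toSubmodule →ₗ[𝕜] EuclideanSpace 𝕜 (Fin 2) :=
      { toFun := fun y => wv C (y : C(Δ, 𝕜)) i
        map_add' := fun _ _ => rfl
        map_smul' := fun _ _ => rfl }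
    have h1 := congrArg L hs
    rw [map_sum, map_zero] at h1
    have h2 : ∀ j, L (g j • e j) = if i = j then g i • w i else 0 := by
      intro j
      rw [map_smul]
      change g j • wv C (e j : C(Δ, 𝕜)) i = _
      rw [hwv]
      split_ifs with h
      · rw [h]
      · simp
    simp only [h2, Finset.sum_ite_eq, hi, if_true] at h1
    exact (smul_eq_zero.1 h1).resolve_right (hw0 i)
  exact Module.Finite.not_linearIndependent_of_infinite e hli

theorem no_selection (C : Cells Δ (ℕ × (Fin 2 ⊕ ℕ))) :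
    ¬ ∃ h : ClosedSubmodule 𝕜 C(Δ, 𝕜) → C(Δ, 𝕜),
      @ContinuousOn _ _ (wijsman 𝕜 C(Δ, 𝕜)) _ h {X | ¬ FiniteDimensional 𝕜 X.toSubmodule} ∧
      ∀ X : ClosedSubmodule 𝕜 C(Δ, 𝕜), ¬ FiniteDimensional 𝕜 X.toSubmodule →
        h X ∈ X ∧ h X ≠ 0 := by
  rintro ⟨h, hc, hh⟩
  let _ := wijsman 𝕜 C(Δ, 𝕜)
  have hX : Continuous (fam (𝕜 := 𝕜) C) := continuous_wijsman_rng (continuous_fam C)
  have hs : Continuous fun p => h (fam C p) := hc.comp_continuous hX (fam_infinite C)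
  have hm : ∀ p, h (fam C p) ∈ (fam C p : Set C(Δ, 𝕜)) := fun p => (hh _ (fam_infinite C p)).1
  obtain ⟨p, hp⟩ := exists_common_zero (fun p i => wv C (h (fam C p)) i)
    (continuous_pi fun i => (continuous_wv C i).comp hs) (fun p i hi => ((hm p).2 i).tan hi)
  apply (hh _ (fam_infinite C p)).2
  ext s
  by_cases hs : ∃ n, s ∈ C.U n
  · obtain ⟨⟨i, u⟩, hn⟩ := hs
    rw [(hm p).1.1 _ s hn]
    cases u with
    | inl j => exact congrArg (fun v : EuclideanSpace 𝕜 (Fin 2) => v j) (hp i)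
    | inr k =>
      have := ((hm p).2 i).esc k
      simp only [hp i, inner_zero_right, zero_mul] at this
      exact this
  · push Not at hs
    exact (hm p).1.2 s hs

omit [CompactSpace Δ] in
lemma exists_cells (e : Δ ≃ₜ (ℕ → Bool)) (ι : Type) [Countable ι] : Nonempty (Cells Δ ι) := by
  obtain ⟨ν, hν⟩ := exists_injective_nat ι
  let U : ℕ → Set (ℕ → Bool) := fun n => {s | s n = true} ∩ ⋂ k ∈ Finset.range n, {s | s k = false}
  have hcl : ∀ (n : ℕ) (b : Bool), IsClopen {s : ℕ → Bool | s n = b} := fun n b =>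
    (isClopen_discrete ({b} : Set Bool)).preimage (continuous_apply n)
  have hU : ∀ n s, s ∈ U n ↔ s n = true ∧ ∀ k < n, s k = false := by
    intro n s
    simp [U]
  refine ⟨⟨fun n => e ⁻¹' U (ν n), fun n => e.symm fun k => decide (k = ν n),
    e.symm fun _ => false, fun n => ?_, fun n => ?_, fun n m s hn hm => ?_, fun n => ?_, ?_⟩⟩
  · exact ((hcl _ _).inter (isClopen_biInter_finset fun k _ => hcl k false)).preimage e.continuous
  · rw [mem_preimage, hU]
    simp only [Homeomorph.apply_symm_apply, decide_true, decide_eq_false_iff_not, true_and]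
    exact fun k hk => hk.ne
  · rw [mem_preimage, hU] at hn hm
    apply hν
    rcases lt_trichotomy (ν n) (ν m) with h | h | h
    · have := hm.2 _ h
      rw [hn.1] at this
      exact absurd this (by simp)
    · exact h
    · have := hn.2 _ h
      rw [hm.1] at this
      exact absurd this (by simp)
  · rw [mem_preimage, hU]
    simp
  · intro N hN
    have h1 : e.symm ⁻¹' N ∈ 𝓝 (fun _ : ℕ => false) :=
      e.symm.continuous.continuousAt.preimage_mem_nhds hN
    rw [nhds_pi, Filter.mem_pi] at h1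
    obtain ⟨I, hI, W, hW, hsub⟩ := h1
    obtain ⟨B, hB⟩ := hI.bddAbove
    have h2 : ∀ᶠ n in cofinite, B < ν n :=
      hν.tendsto_cofinite.eventually (Nat.cofinite_eq_atTop ▸ eventually_gt_atTop B)
    filter_upwards [h2] with n hn s hs
    rw [mem_preimage, hU] at hs
    have h3 : e s ∈ I.pi W := fun k hk => by
      rw [hs.2 k ((hB hk).trans_lt hn)]
      exact mem_of_mem_nhds (hW k)
    simpa using hsub h3

end Pool.Agent.MP_89350a_an
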